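import Pool.Agent.UC.St

/-!
UC [AVG] (helper70): one class against the whole.
-/

set_option autoImplicit false

namespace Pool.Agent.UC

open Classical in
theorem AVG_cnt (σ : ℤ) (A : Set ℤ) (q r M : ℕ) :
    cnt σ A q r M = ∑ m ∈ Finset.range M, if σ * ((q : ℤ) * (m : ℤ) + (r : ℤ)) ∈ A then 1 else 0 := by
  unfold cnt
  rw [← Finset.sum_filter, Finset.sum_const, smul_eq_mul, mul_one, ← Set.ncard_coe_finset]
  congr 1
  ext m
  simp

theorem AVG_sum (q M : ℕ) (f : ℕ → ℕ) :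
    ∑ m ∈ Finset.range (q * M), f m =
      ∑ r ∈ Finset.range q, ∑ m ∈ Finset.range M, f (q * m + r) := by
  induction M with
  | zero => simp
  | succ M ih =>
    rw [Nat.mul_succ, Finset.sum_range_add, ih]
    simp only [Finset.sum_range_succ, Finset.sum_add_distrib]

theorem AVG_total (σ : ℤ) (A : Set ℤ) (q M : ℕ) :
    ∑ r ∈ Finset.range q, cnt σ A q r M = cnt σ A 1 0 (q * M) := by
  simp only [AVG_cnt]
  rw [AVG_sum]
  refine Finset.sum_congr rfl fun r _ => Finset.sum_congr rfl fun m _ => ?_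
  have e : σ * ((q : ℤ) * (m : ℤ) + (r : ℤ)) =
      σ * (((1 : ℕ) : ℤ) * ((q * m + r : ℕ) : ℤ) + ((0 : ℕ) : ℤ)) := by
    push_cast
    ring
  rw [e]

theorem thm_AVG (hD : St_DIF) : St_AVG := by
  obtain ⟨C, hC, h⟩ := hD
  refine ⟨C, hC, fun σ hσ A hA q r M R hq hM hqR hrR => ?_⟩
  have hq1 : 1 ≤ q := hq.pos
  have hq0 : (0 : ℝ) < q := by exact_mod_cast hq1
  have hM0 : (0 : ℝ) < M := by
    have : 0 < M := by omega
    exact_mod_cast this
  set S : ℝ := Real.sqrt ((1 + Real.log (1 + R)) / Real.log M) with hS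
  have e : (cnt σ A q r M : ℝ) / M - cnt σ A 1 0 (q * M) / ((q : ℝ) * M) =
      (∑ r' ∈ Finset.range q, ((cnt σ A q r M : ℝ) - cnt σ A q r' M)) / ((q : ℝ) * M) := by
    rw [Finset.sum_sub_distrib, Finset.sum_const, Finset.card_range, nsmul_eq_mul,
      ← AVG_total σ A q M]
    push_cast
    field_simp
  rw [e, abs_div, abs_of_pos (mul_pos hq0 hM0), div_le_iff₀ (mul_pos hq0 hM0)]
  refine (Finset.abs_sum_le_sum_abs _ _).trans ?_
  have h1 : ∀ r' ∈ Finset.range q, |(cnt σ A q r M : ℝ) - cnt σ A q r' M| ≤ C * M * S := by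
    intro r' hr'
    have h2 : r' < q := Finset.mem_range.1 hr'
    exact (h σ hσ A hA q r r' M R hq hM hrR (by omega)).2
  refine (Finset.sum_le_sum h1).trans (le_of_eq ?_)
  rw [Finset.sum_const, Finset.card_range, nsmul_eq_mul]
  ring

end Pool.Agent.UC
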