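import Pool.Agent.UC.St

/-!
# UC, module CLS: all moduli, all classes
-/

set_option autoImplicit false

namespace Pool.Agent.UC

open Pool.Agent.Helper14 (T)

theorem CLS_sqrt (q M : ℕ) (hq : 1 ≤ q) (hM : 2 ≤ M) :
    Real.sqrt ((1 + Real.log (1 + ((q ^ 2 : ℕ) : ℝ))) / Real.log M) ≤
      2 * Real.sqrt (Real.log (2 * q) / Real.log M) := by
  have hq' : (1 : ℝ) ≤ q := by exact_mod_cast hq
  have hM' : (2 : ℝ) ≤ M := by exact_mod_cast hM
  have hlM : 0 < Real.log M := Real.log_pos (by linarith)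
  have h1 : Real.log (1 + ((q ^ 2 : ℕ) : ℝ)) ≤ 2 * Real.log (2 * q) := by
    have h2 : Real.log ((2 * (q : ℝ)) ^ 2) = 2 * Real.log (2 * q) := by
      rw [Real.log_pow]; norm_num
    rw [← h2]
    apply Real.log_le_log (by positivity)
    push_cast
    nlinarith
  have h3 : (1 : ℝ) ≤ 2 * Real.log (2 * q) := by
    have h4 : Real.log 2 ≤ Real.log (2 * q) := Real.log_le_log (by norm_num) (by linarith)
    have h5 : (0.6931471803 : ℝ) < Real.log 2 := Real.log_two_gt_d9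
    linarith
  have h6 : (1 + Real.log (1 + ((q ^ 2 : ℕ) : ℝ))) / Real.log M ≤
      2 ^ 2 * (Real.log (2 * q) / Real.log M) := by
    rw [← mul_div_assoc]
    apply div_le_div_of_nonneg_right _ hlM.le
    linarith
  calc Real.sqrt ((1 + Real.log (1 + ((q ^ 2 : ℕ) : ℝ))) / Real.log M)
      ≤ Real.sqrt (2 ^ 2 * (Real.log (2 * q) / Real.log M)) := Real.sqrt_le_sqrt h6
    _ = 2 * Real.sqrt (Real.log (2 * q) / Real.log M) := by
        rw [Real.sqrt_mul (by norm_num), Real.sqrt_sq (by norm_num)]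

theorem thm_CLS (hA : St_AVG) (hE : St_EVN) : St_CLS := by
  obtain ⟨C, hC, h⟩ := hA
  refine ⟨2 * C, by linarith, ?_⟩
  intro σ hσ q r hq hr
  have hqq : q ≤ q ^ 2 := Nat.le_self_pow (by norm_num) q
  have key : ∀ (Q ρ : ℕ), Odd Q → 1 ≤ Q → Q ≤ q ^ 2 → ρ ≤ q ^ 2 →
      (∀ A, Inv A → ∀ M, cnt σ A q r M = cnt σ A Q ρ M) → ∀ A, Inv A → ∀ M : ℕ, 2 ≤ M →
      |(cnt σ A q r M : ℝ) / M - cnt σ A 1 0 (Q * M) / ((Q : ℝ) * M)| ≤
        2 * C * Real.sqrt (Real.log (2 * q) / Real.log M) := by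
    intro Q ρ hQo _ hQ hρ he A hA M hM
    rw [he A hA M]
    refine (h σ hσ A hA Q ρ M (q ^ 2) hQo hM hQ hρ).trans ?_
    have := CLS_sqrt q M hq hM
    nlinarith
  by_cases ho : Odd q
  · exact ⟨q, hq, hqq, fun _ => rfl,
      key q r ho hq hqq (hr.le.trans hqq) (fun _ _ _ => rfl)⟩
  · obtain ⟨Q, ρ, hQo, hQ1, hQ, hρ, he⟩ := hE σ hσ q r hq
    refine ⟨Q, hQ1, hQ, fun h => absurd h ho, key Q ρ hQo hQ1 hQ ?_ he⟩
    calc ρ ≤ q * r := hρ
      _ ≤ q * q := Nat.mul_le_mul_left q hr.le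
      _ = q ^ 2 := by ring

end Pool.Agent.UC
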