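import Pool.Agent.UC.St

/-!
# UC: a criterion with short intervals
-/

set_option autoImplicit false

namespace Pool.Agent.UC

open Filter Topology

open Classical in
lemma CRI_card (N : ℕ) (P : ℕ → Prop) :
    Set.ncard {n : ℕ | n < N ∧ P n} = ((Finset.range N).filter P).card := by
  rw [← Set.ncard_coe_finset]
  congr 1
  ext n
  simp

open Classical in
/-- double counting -/
lemma CRI_count (σ : ℤ) (A : Set ℤ) (δ κ : ℝ) (hδ : 0 < δ) (H N : ℕ)
    (hκ : κ * N ≤ (cnt σ A 1 0 N : ℝ)) :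
    (κ * N - (Set.ncard {n : ℕ | n < N ∧
      (Set.ncard {h : ℕ | h < H ∧ σ * ((n : ℤ) + h) ∉ A} : ℝ) < δ * H} : ℝ)) * (δ * H) ≤
    ∑ h ∈ Finset.range H,
      (Set.ncard {n : ℕ | n < N ∧ ¬ (σ * (n : ℤ) ∈ A ↔ σ * ((n : ℤ) + h) ∈ A)} : ℝ) := by
  set G : Finset ℕ := (Finset.range N).filter (fun n => σ * (n : ℤ) ∈ A) with hG
  set B : Finset ℕ := (Finset.range N).filter (fun n =>
    (Set.ncard {h : ℕ | h < H ∧ σ * ((n : ℤ) + h) ∉ A} : ℝ) < δ * H) with hB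
  have e1 : Set.ncard {n : ℕ | n < N ∧
      (Set.ncard {h : ℕ | h < H ∧ σ * ((n : ℤ) + h) ∉ A} : ℝ) < δ * H} = B.card :=
    CRI_card N _
  have e2 : cnt σ A 1 0 N = G.card := by
    have : cnt σ A 1 0 N = Set.ncard {n : ℕ | n < N ∧ σ * (n : ℤ) ∈ A} := by
      unfold cnt
      congr 1
      ext m
      simp
    rw [this]
    exact CRI_card N _
  have e3 : ∀ h : ℕ, (Set.ncard {n : ℕ | n < N ∧ ¬ (σ * (n : ℤ) ∈ A ↔ σ * ((n : ℤ) + h) ∈ A)} : ℝ)
      = ∑ n ∈ Finset.range N,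
        (if ¬ (σ * (n : ℤ) ∈ A ↔ σ * ((n : ℤ) + h) ∈ A) then (1 : ℝ) else 0) := by
    intro h
    rw [CRI_card N, Finset.card_filter]
    push_cast
    rfl
  rw [e1, Finset.sum_congr rfl (fun h _ => e3 h), Finset.sum_comm]
  have hsub : G \ B ⊆ Finset.range N := fun n hn =>
    (Finset.mem_filter.mp (Finset.mem_sdiff.mp hn).1).1
  have hcard : κ * N - B.card ≤ ((G \ B).card : ℝ) := by
    have h1 : G.card ≤ (G \ B).card + B.card := by
      calc G.card ≤ (G \ B ∪ B).card := Finset.card_le_card (by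
            intro x hx
            by_cases hxB : x ∈ B
            · exact Finset.mem_union_right _ hxB
            · exact Finset.mem_union_left _ (Finset.mem_sdiff.mpr ⟨hx, hxB⟩))
        _ ≤ _ := Finset.card_union_le _ _
    have h2 : (G.card : ℝ) ≤ ((G \ B).card : ℝ) + B.card := by exact_mod_cast h1
    rw [e2] at hκ
    linarith
  have hterm : ∀ n ∈ G \ B, δ * H ≤ ∑ h ∈ Finset.range H,
      (if ¬ (σ * (n : ℤ) ∈ A ↔ σ * ((n : ℤ) + h) ∈ A) then (1 : ℝ) else 0) := by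
    intro n hn
    have hn' := Finset.mem_sdiff.mp hn
    have hnG := Finset.mem_filter.mp hn'.1
    have hnB : ¬ ((Set.ncard {h : ℕ | h < H ∧ σ * ((n : ℤ) + h) ∉ A} : ℝ) < δ * H) := by
      intro hlt
      exact hn'.2 (Finset.mem_filter.mpr ⟨hnG.1, hlt⟩)
    have h1 : δ * H ≤ (Set.ncard {h : ℕ | h < H ∧ σ * ((n : ℤ) + h) ∉ A} : ℝ) := not_lt.mp hnB
    rw [CRI_card H, Finset.card_filter] at h1
    push_cast at h1
    refine h1.trans (Finset.sum_le_sum fun h _ => ?_)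
    by_cases hh : σ * ((n : ℤ) + h) ∈ A
    · rw [if_neg (not_not.mpr hh)]
      split_ifs <;> norm_num
    · rw [if_pos hh, if_pos]
      intro hiff
      exact hh (hiff.mp hnG.2)
  have hδH : 0 ≤ δ * H := by positivity
  calc (κ * N - B.card) * (δ * H) ≤ ((G \ B).card : ℝ) * (δ * H) :=
        mul_le_mul_of_nonneg_right hcard hδH
    _ = ∑ n ∈ G \ B, δ * H := by rw [Finset.sum_const, nsmul_eq_mul]
    _ ≤ ∑ n ∈ G \ B, ∑ h ∈ Finset.range H,
        (if ¬ (σ * (n : ℤ) ∈ A ↔ σ * ((n : ℤ) + h) ∈ A) then (1 : ℝ) else 0) :=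
        Finset.sum_le_sum hterm
    _ ≤ _ := Finset.sum_le_sum_of_subset_of_nonneg hsub (fun n _ _ =>
        Finset.sum_nonneg fun h _ => by split_ifs <;> norm_num)

lemma CRI_log (ε : ℝ) (hε : 0 < ε) :
    ∀ᶠ N : ℕ in atTop, Real.log (2 * (⌈(N : ℝ) ^ ε⌉₊ : ℝ)) / Real.log N ≤ 2 * ε := by
  have h1 : Tendsto (fun N : ℕ => Real.log (N : ℝ)) atTop atTop :=
    Real.tendsto_log_atTop.comp tendsto_natCast_atTop_atTop
  filter_upwards [h1.eventually_ge_atTop (Real.log 4 / ε + 1), eventually_ge_atTop 2] with N hN h2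
  have hN2 : (2 : ℝ) ≤ N := by exact_mod_cast h2
  have hNpos : (0 : ℝ) < N := by linarith
  have hlog : 0 < Real.log N := Real.log_pos (by linarith)
  have hp1 : (1 : ℝ) ≤ (N : ℝ) ^ ε := Real.one_le_rpow (by linarith) hε.le
  have hc : (⌈(N : ℝ) ^ ε⌉₊ : ℝ) ≤ 2 * (N : ℝ) ^ ε := by
    have := Nat.ceil_lt_add_one (show (0 : ℝ) ≤ (N : ℝ) ^ ε by linarith)
    linarith
  have hcpos : (0 : ℝ) < (⌈(N : ℝ) ^ ε⌉₊ : ℝ) := by
    have := Nat.le_ceil ((N : ℝ) ^ ε)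
    linarith
  have h3 : Real.log (2 * (⌈(N : ℝ) ^ ε⌉₊ : ℝ)) ≤ Real.log 4 + ε * Real.log N := by
    calc Real.log (2 * (⌈(N : ℝ) ^ ε⌉₊ : ℝ)) ≤ Real.log (4 * (N : ℝ) ^ ε) :=
          Real.log_le_log (by positivity) (by linarith)
      _ = Real.log 4 + Real.log ((N : ℝ) ^ ε) := Real.log_mul (by norm_num) (by positivity)
      _ = _ := by rw [Real.log_rpow hNpos]
  have h4 : Real.log 4 ≤ ε * Real.log N := by
    have h5 : Real.log 4 / ε ≤ Real.log N := by linarith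
    have := (div_le_iff₀ hε).mp h5
    linarith
  rw [div_le_iff₀ hlog]
  linarith

theorem thm_CRI (hI : St_INT) : St_CRI := by
  intro σ hσ A hA δ hδ hden κ hκ
  obtain ⟨C, hC, hint⟩ := hI
  by_contra hcon
  rw [Filter.not_frequently] at hcon
  have hcon' : ∀ᶠ N : ℕ in atTop, κ * N ≤ (cnt σ A 1 0 N : ℝ) :=
    hcon.mono fun N h => not_lt.mp h
  set s : ℝ := δ * κ / (4 * C) with hs
  have hspos : 0 < s := by positivity
  set ε : ℝ := s ^ 2 / 2 with hε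
  have hεpos : 0 < ε := by positivity
  have h1 := hden ε hεpos
  have h2 : ∀ᶠ N : ℕ in atTop, (Set.ncard {n : ℕ | n < N ∧
    (Set.ncard {h : ℕ | h < ⌈(N : ℝ) ^ ε⌉₊ ∧ σ * ((n : ℤ) + h) ∉ A} : ℝ) < δ * ⌈(N : ℝ) ^ ε⌉₊} : ℝ) / N
      < κ / 2 := h1.eventually_lt_const (by positivity)
  obtain ⟨N, hNc, hN2, hNlog, hNge⟩ :=
    (hcon'.and (h2.and ((CRI_log ε hεpos).and (eventually_ge_atTop 2)))).exists
  have hN2' : (2 : ℝ) ≤ N := by exact_mod_cast hNge
  have hNpos : (0 : ℝ) < N := by linarith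
  set H : ℕ := ⌈(N : ℝ) ^ ε⌉₊ with hH
  have hH1 : 1 ≤ H := Nat.one_le_ceil_iff.mpr (by positivity)
  have hHpos : (0 : ℝ) < H := by exact_mod_cast hH1
  have hcount := CRI_count σ A δ κ hδ H N hNc
  have hup := hint σ hσ A hA H N hH1 hNge
  set b : ℝ := (Set.ncard {n : ℕ | n < N ∧
    (Set.ncard {h : ℕ | h < H ∧ σ * ((n : ℤ) + h) ∉ A} : ℝ) < δ * H} : ℝ) with hb
  have hbN : b < κ / 2 * N := (div_lt_iff₀ hNpos).mp hN2
  have hsq : Real.sqrt (Real.log (2 * (H : ℝ)) / Real.log N) ≤ s := by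
    rw [Real.sqrt_le_left hspos.le]
    have : 2 * ε = s ^ 2 := by rw [hε]; ring
    rw [← this]
    exact hNlog
  have h5 : (κ * N - b) * (δ * H) ≤ C * N * H * s :=
    (hcount.trans hup).trans (mul_le_mul_of_nonneg_left hsq (by positivity))
  have h6 : C * s = δ * κ / 4 := by
    rw [hs]
    field_simp
  have h7 : C * N * H * s = (δ * κ / 4) * (N * H) := by
    rw [← h6]
    ring
  have h8 : (κ / 2 * N) * (δ * H) ≤ (κ * N - b) * (δ * H) :=
    mul_le_mul_of_nonneg_right (by linarith) (by positivity)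
  have h9 : (κ / 2 * N) * (δ * H) = (δ * κ / 2) * (N * H) := by ring
  have h10 : 0 < δ * κ * (N * H) := by positivity
  nlinarith

end Pool.Agent.UC
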