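import Pool.Agent.UC.St

/-!
# UC: `DEN`, all moduli `q ≤ N ^ δ` if the set has a density
-/

set_option autoImplicit false

namespace Pool.Agent.UC

open Filter Topology

/-- The elements of the residue class below `N`, against `cnt` with `N / q` terms. -/
private theorem DEN_cnt (σ : ℤ) (A : Set ℤ) (q r N : ℕ) (hq : 1 ≤ q) (hr : r < q) :
    cnt σ A q r (N / q) ≤ Set.ncard {n : ℕ | n < N ∧ n % q = r ∧ σ * n ∈ A} ∧
    Set.ncard {n : ℕ | n < N ∧ n % q = r ∧ σ * n ∈ A} ≤ cnt σ A q r (N / q) + 1 := by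
  have hfinS : {n : ℕ | n < N ∧ n % q = r ∧ σ * n ∈ A}.Finite :=
    (Set.finite_Iio N).subset fun n hn => hn.1
  have hfinC : {m : ℕ | m < N / q ∧ σ * (q * m + r) ∈ A}.Finite :=
    (Set.finite_Iio (N / q)).subset fun n hn => hn.1
  have hinj : Function.Injective fun m : ℕ => q * m + r := by
    intro a b h
    have h1 : q * a + r = q * b + r := h
    have h2 : q * a = q * b := by omega
    exact Nat.eq_of_mul_eq_mul_left (by omega) h2
  have him : Set.ncard ((fun m : ℕ => q * m + r) '' {m : ℕ | m < N / q ∧ σ * (q * m + r) ∈ A}) =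
      cnt σ A q r (N / q) := Set.ncard_image_of_injective _ hinj
  constructor
  · rw [← him]
    refine Set.ncard_le_ncard ?_ hfinS
    rintro _ ⟨m, ⟨hm, hA⟩, rfl⟩
    refine ⟨?_, ?_, ?_⟩
    · have h1 : q * (m + 1) ≤ q * (N / q) := Nat.mul_le_mul_left q hm
      have h2 : q * (N / q) ≤ N := Nat.mul_div_le N q
      have h3 : q * (m + 1) = q * m + q := by ring
      show q * m + r < N
      omega
    · show (q * m + r) % q = r
      rw [Nat.mul_add_mod]
      exact Nat.mod_eq_of_lt hr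
    · show σ * ((q * m + r : ℕ) : ℤ) ∈ A
      push_cast
      exact hA
  · have hsub : {n : ℕ | n < N ∧ n % q = r ∧ σ * n ∈ A} ⊆
        ((fun m : ℕ => q * m + r) '' {m : ℕ | m < N / q ∧ σ * (q * m + r) ∈ A}) ∪
          {q * (N / q) + r} := by
      rintro n ⟨hn, hmod, hA⟩
      have hdm : q * (n / q) + r = n := by
        have := Nat.div_add_mod n q
        rw [hmod] at this
        exact this
      have hle : n / q ≤ N / q := Nat.div_le_div_right hn.le
      rcases hle.lt_or_eq with hlt | heq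
      · left
        refine ⟨n / q, ⟨hlt, ?_⟩, hdm⟩
        have h1 : ((q * (n / q) + r : ℕ) : ℤ) = n := by rw [hdm]
        have h2 : σ * ((q : ℤ) * ((n / q : ℕ) : ℤ) + r) = σ * n := by
          rw [← h1]; push_cast; rfl
        rw [h2]
        exact hA
      · right
        show n = q * (N / q) + r
        rw [← heq, hdm]
    calc _ ≤ _ := Set.ncard_le_ncard hsub ((hfinC.image _).union (Set.finite_singleton _))
      _ ≤ _ := Set.ncard_union_le _ _
      _ = _ := by rw [him, Set.ncard_singleton]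

/-- The real estimate at the end. -/
private theorem DEN_real (x c m y B d η e : ℝ) (hx1 : c ≤ x) (hx2 : x ≤ c + 1) (hm : 0 < m)
    (hy1 : m ≤ y) (hy2 : y ≤ m + 1) (hc : |c / m - B| ≤ η) (hB : |B - d| ≤ η)
    (h1 : 1 + |d| ≤ e * y) (he : 0 ≤ e) : |x - d * y| ≤ (2 * η + e) * y := by
  have hη : 0 ≤ η := le_trans (abs_nonneg _) hB
  have h2 : |c - d * m| ≤ 2 * η * m := by
    have h3 : c - d * m = ((c / m - B) + (B - d)) * m := by
      field_simp
      ring
    rw [h3, abs_mul, abs_of_pos hm]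
    have h4 := abs_add_le (c / m - B) (B - d)
    exact mul_le_mul_of_nonneg_right (by linarith) hm.le
  have h3 : |x - c| ≤ 1 := by
    rw [abs_le]; constructor <;> linarith
  have h4 : |d * (m - y)| ≤ |d| := by
    rw [abs_mul]
    have h5 : |m - y| ≤ 1 := by rw [abs_le]; constructor <;> linarith
    have := mul_le_mul_of_nonneg_left h5 (abs_nonneg d)
    linarith
  have h5 : x - d * y = (x - c) + (c - d * m) + d * (m - y) := by ring
  rw [h5]
  have h6 := abs_add_le ((x - c) + (c - d * m)) (d * (m - y))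
  have h7 := abs_add_le (x - c) (c - d * m)
  have h8 : 2 * η * m ≤ 2 * η * y := mul_le_mul_of_nonneg_left hy1 (by linarith)
  nlinarith

theorem thm_DEN (hC : St_CLS) : St_DEN := by
  obtain ⟨C, hC0, hC⟩ := hC
  intro σ hσ A hA d hd ε hε
  -- the constants
  obtain ⟨κ, hκ0, hκ⟩ : ∃ κ : ℝ, 0 < κ ∧ C * Real.sqrt κ ≤ ε / 4 := by
    refine ⟨(ε / (4 * C)) ^ 2, by positivity, ?_⟩
    rw [Real.sqrt_sq (by positivity)]
    apply le_of_eq
    field_simp
  obtain ⟨N₁, hN₁⟩ : ∃ N₁ : ℕ, ∀ M : ℕ, N₁ ≤ M → |(cnt σ A 1 0 M : ℝ) / M - d| ≤ ε / 4 := by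
    have h := (Metric.tendsto_atTop.mp hd) (ε / 4) (by positivity)
    obtain ⟨N₁, hN₁⟩ := h
    refine ⟨N₁, fun M hM => ?_⟩
    have h1 := hN₁ M hM
    rw [Real.dist_eq] at h1
    exact h1.le
  have hs : Tendsto (fun N : ℕ => Real.sqrt (N : ℝ)) atTop atTop :=
    Real.tendsto_sqrt_atTop.comp tendsto_natCast_atTop_atTop
  have hl : Tendsto (fun N : ℕ => Real.log (N : ℝ)) atTop atTop :=
    Real.tendsto_log_atTop.comp tendsto_natCast_atTop_atTop
  have hev : ∀ᶠ N : ℕ in atTop, ((N₁ : ℝ) + 3 ≤ Real.sqrt N ∧ 4 * (1 + |d|) / ε ≤ Real.sqrt N) ∧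
      (6 * Real.log 2 ≤ Real.log N ∧ 6 * Real.log 2 / κ ≤ Real.log N) :=
    ((hs.eventually_ge_atTop _).and (hs.eventually_ge_atTop _)).and
      ((hl.eventually_ge_atTop _).and (hl.eventually_ge_atTop _))
  obtain ⟨N₀, hN₀⟩ := eventually_atTop.mp hev
  refine ⟨min (1 / 2) (κ / 6), by positivity, N₀, ?_⟩
  intro q r N hq hr hN hqN
  obtain ⟨⟨hN1, hN2⟩, hN3, hN4⟩ := hN₀ N hN
  have hN1' : (0 : ℝ) ≤ N₁ := Nat.cast_nonneg _
  have hsN : 3 ≤ Real.sqrt (N : ℝ) := by linarith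
  have hsN0 : 0 < Real.sqrt (N : ℝ) := by linarith
  have hsq : Real.sqrt (N : ℝ) * Real.sqrt N = N := Real.mul_self_sqrt (Nat.cast_nonneg _)
  have hNge : (1 : ℝ) ≤ N := by nlinarith
  have hN0 : (0 : ℝ) < N := by linarith
  have hq0 : (0 : ℝ) < q := by exact_mod_cast (show 0 < q by omega)
  have hq1 : (1 : ℝ) ≤ q := by exact_mod_cast hq
  have hlog2 : 0 < Real.log 2 := Real.log_pos (by norm_num)
  -- `q` is small
  have hqs : (q : ℝ) ≤ Real.sqrt N := by
    refine hqN.trans ?_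
    rw [Real.sqrt_eq_rpow]
    exact Real.rpow_le_rpow_of_exponent_le hNge (min_le_left _ _)
  have hlogq : Real.log q ≤ κ / 6 * Real.log N := by
    have h1 : Real.log q ≤ Real.log ((N : ℝ) ^ (min (1 / 2) (κ / 6))) :=
      Real.log_le_log hq0 hqN
    rw [Real.log_rpow hN0] at h1
    refine h1.trans ?_
    exact mul_le_mul_of_nonneg_right (min_le_right _ _) (by linarith)
  -- the quotient
  have hyge : Real.sqrt N ≤ (N : ℝ) / q := by
    rw [le_div_iff₀ hq0]
    calc Real.sqrt N * q ≤ Real.sqrt N * Real.sqrt N := mul_le_mul_of_nonneg_left hqs hsN0.le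
      _ = N := hsq
  have hM1 : ((N / q : ℕ) : ℝ) ≤ (N : ℝ) / q := Nat.cast_div_le
  have hM2 : (N : ℝ) / q ≤ ((N / q : ℕ) : ℝ) + 1 := by
    rw [div_le_iff₀ hq0]
    have h1 : N < q * (N / q + 1) := by
      have := Nat.div_add_mod N q
      have h2 := Nat.mod_lt N (show 0 < q by omega)
      have h3 : q * (N / q + 1) = q * (N / q) + q := by ring
      omega
    have h2 : (N : ℝ) < (q : ℝ) * (((N / q : ℕ) : ℝ) + 1) := by exact_mod_cast h1
    linarith
  have hMge : (N₁ : ℝ) + 2 ≤ ((N / q : ℕ) : ℝ) := by linarith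
  have hMge2 : N₁ + 2 ≤ N / q := by exact_mod_cast hMge
  have hMpos : (0 : ℝ) < ((N / q : ℕ) : ℝ) := by linarith
  have hlogM : Real.log N / 3 ≤ Real.log ((N / q : ℕ) : ℝ) := by
    have h1 : Real.sqrt N / 2 ≤ ((N / q : ℕ) : ℝ) := by linarith
    have h2 := Real.log_le_log (by positivity) h1
    rw [Real.log_div hsN0.ne' (by norm_num), Real.log_sqrt (Nat.cast_nonneg _)] at h2
    linarith
  -- the error of `CLS`
  obtain ⟨Q, hQ1, -, -, hQ⟩ := hC σ hσ q r hq hr
  have hcls := hQ A hA (N / q) (by omega)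
  have herr : C * Real.sqrt (Real.log (2 * q) / Real.log ((N / q : ℕ) : ℝ)) ≤ ε / 4 := by
    refine le_trans ?_ hκ
    refine mul_le_mul_of_nonneg_left (Real.sqrt_le_sqrt ?_) hC0.le
    have hlp : 0 < Real.log ((N / q : ℕ) : ℝ) := by linarith
    rw [div_le_iff₀ hlp, Real.log_mul (by norm_num) hq0.ne']
    have h1 : Real.log 2 ≤ κ / 6 * Real.log N := by
      rw [div_le_iff₀ hκ0] at hN4
      linarith
    have h2 : κ * (Real.log N / 3) ≤ κ * Real.log ((N / q : ℕ) : ℝ) :=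
      mul_le_mul_of_nonneg_left hlogM hκ0.le
    linarith
  have hB : |(cnt σ A 1 0 (Q * (N / q)) : ℝ) / ((Q : ℝ) * ((N / q : ℕ) : ℝ)) - d| ≤ ε / 4 := by
    have h1 := hN₁ (Q * (N / q)) (by
      calc N₁ ≤ N / q := by omega
        _ = 1 * (N / q) := (one_mul _).symm
        _ ≤ Q * (N / q) := Nat.mul_le_mul_right _ hQ1)
    rw [Nat.cast_mul] at h1
    exact h1
  obtain ⟨hx1, hx2⟩ := DEN_cnt σ A q r N hq hr
  have hx1' : ((cnt σ A q r (N / q) : ℕ) : ℝ) ≤
      (Set.ncard {n : ℕ | n < N ∧ n % q = r ∧ σ * n ∈ A} : ℝ) := by exact_mod_cast hx1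
  have hx2' : (Set.ncard {n : ℕ | n < N ∧ n % q = r ∧ σ * n ∈ A} : ℝ) ≤
      ((cnt σ A q r (N / q) : ℕ) : ℝ) + 1 := by exact_mod_cast hx2
  have h1d : 1 + |d| ≤ ε / 4 * ((N : ℝ) / q) := by
    have h1 : 4 * (1 + |d|) ≤ Real.sqrt N * ε := (div_le_iff₀ hε).mp hN2
    have h2 : Real.sqrt N * ε ≤ (N : ℝ) / q * ε := mul_le_mul_of_nonneg_right hyge hε.le
    linarith
  have hfin := DEN_real _ _ _ _ _ d (ε / 4) (ε / 4) hx1' hx2' hMpos hM1 hM2
    (hcls.trans herr) hB h1d (by positivity)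
  have hyp : 0 ≤ (N : ℝ) / q := by positivity
  refine hfin.trans (mul_le_mul_of_nonneg_right (by linarith) hyp)

end Pool.Agent.UC
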