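import Pool.Agent.UC.St

/-!
# UC, module DIF: two classes to the same odd modulus
-/

set_option autoImplicit false

namespace Pool.Agent.UC

open Pool.Agent.Helper14 (T)
open Pool.Agent.Helper86.CollatzInt (Meet)

private theorem DIF_iter {A : Set ℤ} (hA : Inv A) (k : ℕ) : ∀ n, T^[k] n ∈ A ↔ n ∈ A := by
  induction k with
  | zero => exact fun n => Iff.rfl
  | succ k ih =>
    intro n
    rw [Function.iterate_succ_apply]
    exact (ih (T n)).trans (hA n)

private theorem DIF_meet {A : Set ℤ} (hA : Inv A) {n n' : ℤ} (h : Meet n n') : n ∈ A ↔ n' ∈ A := by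
  obtain ⟨k, hk⟩ := h
  rw [← DIF_iter hA k n, ← DIF_iter hA k n', hk]

theorem thm_DIF (hP : St_PAR) : St_DIF := by
  obtain ⟨C, hC, hP⟩ := hP
  refine ⟨C, hC, ?_⟩
  intro σ hσ A hA q r r' M R hq hM hr hr'
  have hσ' : σ = 1 ∨ σ = -1 := by
    rcases abs_choice σ with h | h
    · left; omega
    · right; omega
  have hodd : Odd (σ * (q : ℤ)) := by
    have h1 : Odd σ := by rcases hσ' with h | h <;> rw [h] <;> decide
    exact h1.mul ((Int.odd_coe_nat q).2 hq)
  set D : Set ℕ := {m : ℕ | m < M ∧ ¬ (σ * (q * m + r) ∈ A ↔ σ * (q * m + r') ∈ A)} with hD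
  have hfin : ∀ p : ℕ → Prop, {m : ℕ | m < M ∧ p m}.Finite := fun p =>
    (Set.finite_Iio M).subset fun m hm => hm.1
  have hDfin : D.Finite := hfin _
  have h1 : (D.ncard : ℝ) ≤ C * M * Real.sqrt ((1 + Real.log (1 + R)) / Real.log M) := by
    have h2 := hP (σ * q) (σ * r) 0 (σ * ((r' : ℤ) - r)) M hodd hM
    have h3 : D ⊆ {m : ℕ | m < M ∧ ¬ Meet (σ * q * m + σ * r)
        (3 ^ 0 * (σ * q * m + σ * r) + σ * ((r' : ℤ) - r))} := by
      rintro m ⟨hm1, hm2⟩
      refine ⟨hm1, fun hme => hm2 ?_⟩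
      have h4 := DIF_meet hA hme
      have e1 : σ * q * m + σ * r = σ * (q * m + r) := by ring
      have e2 : 3 ^ 0 * (σ * q * m + σ * r) + σ * ((r' : ℤ) - r) = σ * (q * m + r') := by ring
      rw [e1] at h4
      rw [e1] at e2
      rw [e2] at h4
      exact h4
    have h4 : (D.ncard : ℝ) ≤ (Set.ncard {m : ℕ | m < M ∧ ¬ Meet (σ * q * m + σ * r)
        (3 ^ 0 * (σ * q * m + σ * r) + σ * ((r' : ℤ) - r))} : ℝ) := by
      exact_mod_cast Set.ncard_le_ncard h3 (hfin _)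
    refine h4.trans (h2.trans ?_)
    have hb : |((σ * ((r' : ℤ) - r) : ℤ) : ℝ)| ≤ R := by
      have h5 : |σ * ((r' : ℤ) - r)| ≤ (R : ℤ) := by
        rw [abs_mul, hσ, one_mul, abs_le]
        constructor <;> omega
      exact_mod_cast h5
    have hlog : Real.log (1 + |((σ * ((r' : ℤ) - r) : ℤ) : ℝ)|) ≤ Real.log (1 + R) :=
      Real.log_le_log (by positivity) (by linarith)
    have hlM : 0 ≤ Real.log M := Real.log_nonneg (by
      have : (2 : ℝ) ≤ M := by exact_mod_cast hM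
      linarith)
    refine mul_le_mul_of_nonneg_left (Real.sqrt_le_sqrt ?_) (by positivity)
    refine div_le_div_of_nonneg_right ?_ hlM
    push_cast at hlog ⊢
    linarith
  refine ⟨h1, le_trans ?_ h1⟩
  have h5 : ∀ s s' : ℕ, (∀ m : ℕ, m < M → σ * (q * m + s) ∈ A → ¬ σ * (q * m + s') ∈ A → m ∈ D) →
      (cnt σ A q s M : ℝ) ≤ cnt σ A q s' M + D.ncard := by
    intro s s' hss
    have h6 : {m : ℕ | m < M ∧ σ * (q * m + s) ∈ A} ⊆
        {m : ℕ | m < M ∧ σ * (q * m + s') ∈ A} ∪ D := by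
      rintro m ⟨hm1, hm2⟩
      by_cases h7 : σ * (q * m + s') ∈ A
      · exact Or.inl ⟨hm1, h7⟩
      · exact Or.inr (hss m hm1 hm2 h7)
    have h7 : cnt σ A q s M ≤ cnt σ A q s' M + D.ncard := by
      unfold cnt
      exact (Set.ncard_le_ncard h6 ((hfin _).union hDfin)).trans (Set.ncard_union_le _ _)
    exact_mod_cast h7
  rw [abs_le]
  have h6 := h5 r r' (fun m hm h7 h8 => ⟨hm, fun h9 => h8 (h9.1 h7)⟩)
  have h7 := h5 r' r (fun m hm h7 h8 => ⟨hm, fun h9 => h8 (h9.2 h7)⟩)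
  constructor <;> linarith

end Pool.Agent.UC
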