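import Pool.Agent.UC.St

/-!
UC [EVN] (helper35): even moduli.
-/

set_option autoImplicit false

namespace Pool.Agent.UC

open Pool.Agent.Helper14 (T)
open Pool.Agent.Helper86.CollatzInt (T_even T_odd)

theorem EVN_cnt {σ : ℤ} {q r q' r' : ℕ}
    (h : ∀ m : ℕ, T (σ * ((q : ℤ) * m + r)) = σ * ((q' : ℤ) * m + r')) {A : Set ℤ} (hA : Inv A)
    (M : ℕ) : cnt σ A q r M = cnt σ A q' r' M := by
  unfold cnt
  congr 1
  ext m
  simp only [Set.mem_setOf_eq]
  rw [← hA (σ * ((q : ℤ) * m + r)), h m]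

theorem EVN_aux {σ : ℤ} (hσ : |σ| = 1) (i : ℕ) : ∀ p r : ℕ, Odd p → ∃ Q ρ : ℕ, Odd Q ∧
    Q ≤ 3 ^ i * p ∧ ρ ≤ 2 ^ i * r ∧ ∀ A, Inv A → ∀ M, cnt σ A (2 ^ i * p) r M = cnt σ A Q ρ M := by
  induction i with
  | zero =>
    intro p r hp
    exact ⟨p, r, hp, by simp, by simp, fun A _ M => by simp⟩
  | succ i ih =>
    intro p r hp
    rcases Nat.even_or_odd' r with ⟨r1, hr | hr⟩
    · obtain ⟨Q, ρ, hQ, hQ1, hρ, hc⟩ := ih p r1 hp
      refine ⟨Q, ρ, hQ, hQ1.trans ?_, hρ.trans ?_, fun A hA M => ?_⟩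
      · rw [pow_succ]
        nlinarith [Nat.zero_le (3 ^ i * p)]
      · rw [pow_succ, hr]
        nlinarith [Nat.zero_le (2 ^ i * r1)]
      · rw [← hc A hA M]
        refine EVN_cnt (fun m => ?_) hA M
        rw [hr]
        push_cast
        rw [show σ * (2 ^ (i + 1) * (p : ℤ) * m + 2 * r1) = 2 * (σ * (2 ^ i * (p : ℤ) * m + r1)) by
          ring, T_even]
    · have hp3 : Odd (3 * p) := (by decide : Odd 3).mul hp
      rcases (abs_eq (by norm_num : (0 : ℤ) ≤ 1)).1 hσ with h1 | h1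
      · obtain ⟨Q, ρ, hQ, hQ1, hρ, hc⟩ := ih (3 * p) (3 * r1 + 2) hp3
        refine ⟨Q, ρ, hQ, hQ1.trans (le_of_eq ?_), hρ.trans ?_, fun A hA M => ?_⟩
        · rw [pow_succ]
          ring
        · rw [pow_succ, hr, mul_assoc]
          exact Nat.mul_le_mul_left _ (by omega)
        · rw [← hc A hA M]
          refine EVN_cnt (fun m => ?_) hA M
          rw [hr, h1]
          push_cast
          rw [show (1 : ℤ) * (2 ^ (i + 1) * (p : ℤ) * m + (2 * r1 + 1)) =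
            2 * (2 ^ i * (p : ℤ) * m + r1) + 1 by ring, T_odd]
          ring
      · obtain ⟨Q, ρ, hQ, hQ1, hρ, hc⟩ := ih (3 * p) (3 * r1 + 1) hp3
        refine ⟨Q, ρ, hQ, hQ1.trans (le_of_eq ?_), hρ.trans ?_, fun A hA M => ?_⟩
        · rw [pow_succ]
          ring
        · rw [pow_succ, hr, mul_assoc]
          exact Nat.mul_le_mul_left _ (by omega)
        · rw [← hc A hA M]
          refine EVN_cnt (fun m => ?_) hA M
          rw [hr, h1]
          push_cast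
          rw [show (-1 : ℤ) * (2 ^ (i + 1) * (p : ℤ) * m + (2 * r1 + 1)) =
            2 * (-(2 ^ i * (p : ℤ) * m) - r1 - 1) + 1 by ring, T_odd]
          ring

theorem thm_EVN : St_EVN := by
  intro σ hσ q r hq
  obtain ⟨i, p, hp, hqp⟩ := Nat.exists_eq_two_pow_mul_odd (by omega : q ≠ 0)
  obtain ⟨Q, ρ, hQ, hQ1, hρ, hc⟩ := EVN_aux hσ i p r hp
  have hp1 : 1 ≤ p := hp.pos
  refine ⟨Q, ρ, hQ, hQ.pos, hQ1.trans ?_, hρ.trans ?_, fun A hA M => ?_⟩
  · rw [hqp]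
    calc 3 ^ i * p ≤ 4 ^ i * p := Nat.mul_le_mul_right _ (Nat.pow_le_pow_left (by norm_num) i)
      _ ≤ 4 ^ i * p * p := Nat.le_mul_of_pos_right _ hp1
      _ = (2 ^ i * p) ^ 2 := by
        rw [show (4 : ℕ) = 2 ^ 2 by norm_num, ← pow_mul]
        ring
  · rw [hqp]
    refine Nat.mul_le_mul_right _ (Nat.le_mul_of_pos_right _ hp1)
  · rw [← hc A hA M, hqp]

end Pool.Agent.UC
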