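import Pool.Agent.UC.St

/-!
# UC, module INT (helper25)

Local constancy on intervals, averaged.
-/

set_option autoImplicit false

namespace Pool.Agent.UC

theorem INT_log (H : ℕ) (hH : 1 ≤ H) :
    1 + Real.log (1 + (H : ℝ)) ≤ 4 * Real.log (2 * (H : ℝ)) := by
  have h1 : (1 : ℝ) ≤ H := by exact_mod_cast hH
  have h2 : Real.log (1 + (H : ℝ)) ≤ Real.log (2 * (H : ℝ)) :=
    Real.log_le_log (by linarith) (by linarith)
  have h3 : Real.log 2 ≤ Real.log (2 * (H : ℝ)) := Real.log_le_log (by norm_num) (by linarith)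
  have h4 := Real.log_two_gt_d9
  linarith

theorem INT_sqrt (H N : ℕ) (hH : 1 ≤ H) (hN : 2 ≤ N) :
    Real.sqrt ((1 + Real.log (1 + (H : ℝ))) / Real.log N) ≤
      2 * Real.sqrt (Real.log (2 * (H : ℝ)) / Real.log N) := by
  have hl : 0 < Real.log N := by
    apply Real.log_pos
    have : 1 < N := by omega
    exact_mod_cast this
  have h7 : (2 : ℝ) * Real.sqrt (Real.log (2 * (H : ℝ)) / Real.log N) =
      Real.sqrt (4 * (Real.log (2 * (H : ℝ)) / Real.log N)) := by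
    rw [Real.sqrt_mul (by norm_num)]
    have : Real.sqrt 4 = 2 := by
      rw [show (4 : ℝ) = 2 ^ 2 by norm_num, Real.sqrt_sq (by norm_num)]
    rw [this]
  rw [h7]
  apply Real.sqrt_le_sqrt
  rw [mul_div_assoc']
  exact div_le_div_of_nonneg_right (INT_log H hH) hl.le

theorem thm_INT (hD : St_DIF) : St_INT := by
  obtain ⟨C, hC, hdif⟩ := hD
  refine ⟨2 * C, by positivity, ?_⟩
  intro σ hσ A hA H N hH hN
  have key : ∀ h ∈ Finset.range H,
      (Set.ncard {n : ℕ | n < N ∧ ¬ (σ * n ∈ A ↔ σ * (n + h) ∈ A)} : ℝ) ≤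
        2 * C * N * Real.sqrt (Real.log (2 * (H : ℝ)) / Real.log N) := by
    intro h hh
    have h1 := (hdif σ hσ A hA 1 0 h N H odd_one hN (Nat.zero_le _) (Finset.mem_range.1 hh).le).1
    have h2 : {m : ℕ | m < N ∧ ¬ (σ * (((1 : ℕ) : ℤ) * (m : ℤ) + ((0 : ℕ) : ℤ)) ∈ A ↔
        σ * (((1 : ℕ) : ℤ) * (m : ℤ) + (h : ℤ)) ∈ A)} =
        {n : ℕ | n < N ∧ ¬ (σ * (n : ℤ) ∈ A ↔ σ * ((n : ℤ) + (h : ℤ)) ∈ A)} := by
      ext m
      simp only [Set.mem_setOf_eq, Nat.cast_one, Nat.cast_zero, one_mul, add_zero]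
    rw [h2] at h1
    refine h1.trans ?_
    have h3 := INT_sqrt H N hH hN
    calc C * N * Real.sqrt ((1 + Real.log (1 + (H : ℝ))) / Real.log N)
        ≤ C * N * (2 * Real.sqrt (Real.log (2 * (H : ℝ)) / Real.log N)) :=
          mul_le_mul_of_nonneg_left h3 (by positivity)
      _ = 2 * C * N * Real.sqrt (Real.log (2 * (H : ℝ)) / Real.log N) := by ring
  refine (Finset.sum_le_sum key).trans (le_of_eq ?_)
  rw [Finset.sum_const, Finset.card_range, nsmul_eq_mul]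
  ring

end Pool.Agent.UC
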