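import Pool.Agent.UC.St
import Pool.Agent.Collatz3.PDGrand

/-!
# UC, module LIN: a theorem of Linnik type for grand orbits (helper40)
-/

set_option autoImplicit false

namespace Pool.Agent.UC

open Filter Topology
open Pool.Agent.Helper14 (T)

theorem LIN_inv (a : ℤ) : Inv (orb a) := by
  intro n
  constructor
  · rintro ⟨j, k, h⟩
    exact ⟨j + 1, k, by rw [Function.iterate_succ_apply]; exact h⟩
  · rintro ⟨j, k, h⟩
    refine ⟨j, k + 1, ?_⟩
    rw [← Function.iterate_succ_apply, Function.iterate_succ_apply', Function.iterate_succ_apply', h]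

theorem LIN_sign {σ a n : ℤ} (hσ : |σ| = 1) (ha : 0 < σ * a) (hn : 0 < n * a) :
    σ * |n| = n := by
  rcases abs_eq (zero_le_one) |>.1 hσ with rfl | rfl
  · have h1 : 0 < a := by linarith
    have h2 : 0 < n := by
      by_contra h
      have := mul_nonpos_of_nonpos_of_nonneg (not_lt.1 h) h1.le
      linarith
    rw [one_mul, abs_of_pos h2]
  · have h1 : a < 0 := by linarith
    have h2 : n < 0 := by
      by_contra h
      have := mul_nonpos_of_nonneg_of_nonpos (not_lt.1 h) h1.le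
      linarith
    rw [abs_of_neg h2]
    ring

/-- the density of the grand orbit -/
theorem LIN_dens : ∃ c : ℝ, 0 < c ∧ ∀ σ a : ℤ, |σ| = 1 → 0 < σ * a → ∀ Y : ℕ,
    |(a : ℝ)| + 1 ≤ Y → c * ((Y - 1) / |(a : ℝ)|) ≤ (cnt σ (orb a) 1 0 Y : ℝ) := by
  obtain ⟨c, hc, h⟩ := Pool.Agent.Collatz3.PD.grand_density
  refine ⟨c, hc, fun σ a hσ ha Y hY => ?_⟩
  have ha0 : a ≠ 0 := by
    rintro rfl
    simp at ha
  have hab : (0 : ℝ) < |(a : ℝ)| := abs_pos.2 (Int.cast_ne_zero.2 ha0)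
  have h1 := h a ha0 ((Y - 1) / |(a : ℝ)|) (by rw [le_div_iff₀ hab]; linarith)
  refine h1.trans ?_
  rw [div_mul_cancel₀ _ hab.ne']
  unfold cnt
  rw [Nat.cast_le]
  refine Set.ncard_le_ncard_of_injOn (fun n : ℤ => n.natAbs) ?_ ?_
    ((Set.finite_lt_nat Y).subset fun m hm => hm.1)
  · rintro n ⟨hn1, hn2, j, k, hjk, -⟩
    have e1 : ((n.natAbs : ℕ) : ℤ) = |n| := Int.natCast_natAbs n
    refine ⟨?_, ?_⟩
    · have h2 : ((n.natAbs : ℕ) : ℝ) = |(n : ℝ)| := by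
        rw [← Int.cast_abs, ← e1]
        rfl
      have h3 : ((n.natAbs : ℕ) : ℝ) < Y := by
        rw [h2]
        linarith
      exact_mod_cast h3
    · have h2 : σ * (((1 : ℕ) : ℤ) * ((n.natAbs : ℕ) : ℤ) + ((0 : ℕ) : ℤ)) = n := by
        rw [e1]
        push_cast
        rw [one_mul, add_zero]
        exact LIN_sign hσ ha hn1
      show σ * (((1 : ℕ) : ℤ) * ((n.natAbs : ℕ) : ℤ) + ((0 : ℕ) : ℤ)) ∈ orb a
      rw [h2]
      exact ⟨j, k, hjk⟩
  · rintro n ⟨hn1, -⟩ n' ⟨hn1', -⟩ hnn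
    have e1 : |n| = |n'| := by
      rw [← Int.natCast_natAbs, ← Int.natCast_natAbs]
      exact congrArg Nat.cast hnn
    rw [← LIN_sign hσ ha hn1, ← LIN_sign hσ ha hn1', e1]

/-- elements of the progression -/
theorem LIN_cnt (σ : ℤ) (A : Set ℤ) {q r M N : ℕ} (hr : r < q) (hM : q * M ≤ N) :
    cnt σ A q r M ≤ Set.ncard {n : ℕ | n < N ∧ n % q = r ∧ σ * n ∈ A} := by
  unfold cnt
  refine Set.ncard_le_ncard_of_injOn (fun m : ℕ => q * m + r) ?_ ?_
    ((Set.finite_lt_nat N).subset fun m hm => hm.1)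
  · rintro m ⟨hm, hA⟩
    refine ⟨?_, ?_, ?_⟩
    · have h1 : q * (m + 1) ≤ q * M := Nat.mul_le_mul_left q hm
      show q * m + r < N
      rw [mul_add, mul_one] at h1
      omega
    · show (q * m + r) % q = r
      rw [Nat.mul_add_mod, Nat.mod_eq_of_lt hr]
    · show σ * ((q * m + r : ℕ) : ℤ) ∈ A
      push_cast
      exact hA
  · intro m _ m' _ h
    have h' : q * m + r = q * m' + r := h
    have h1 : q * m = q * m' := by omega
    exact Nat.eq_of_mul_eq_mul_left (by omega) h1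

theorem thm_LIN (hC : St_CLS) : St_LIN := by
  obtain ⟨C₁, hC₁, hcls⟩ := hC
  obtain ⟨c₀, hc₀, hden⟩ := LIN_dens
  set C : ℝ := 4 + 32 * C₁ ^ 2 / c₀ ^ 2 with hCdef
  have hC4 : 4 ≤ C := by
    have : 0 ≤ 32 * C₁ ^ 2 / c₀ ^ 2 := by positivity
    linarith
  refine ⟨c₀ / 8, C, by positivity, by linarith, fun σ a hσ ha q r N hq hr hN => ?_⟩
  have ha0 : a ≠ 0 := by
    rintro rfl
    simp at ha
  have hab : (0 : ℝ) < |(a : ℝ)| := abs_pos.2 (Int.cast_ne_zero.2 ha0)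
  have hab1 : (1 : ℝ) ≤ |(a : ℝ)| := by
    have h := Int.one_le_abs ha0
    have h2 : ((1 : ℤ) : ℝ) ≤ ((|a| : ℤ) : ℝ) := by exact_mod_cast h
    rwa [Int.cast_abs, Int.cast_one] at h2
  have ha2 : |(a : ℝ)| ^ 2 = (a : ℝ) ^ 2 := sq_abs _
  have ha21 : (1 : ℝ) ≤ (a : ℝ) ^ 2 := by
    rw [← ha2]
    nlinarith
  have hqR : (1 : ℝ) ≤ q := by exact_mod_cast hq
  have h2q : (2 : ℝ) ≤ 2 * q := by linarith
  have hlog : 0 < Real.log (2 * q) := Real.log_pos (by linarith)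
  -- `N ≥ 2 q (1 + |a|)`
  have hk : (1 : ℝ) + |(a : ℝ)| ≤ (2 * (q : ℝ)) ^ ((a : ℝ) ^ 2) := by
    have e1 : ((a.natAbs ^ 2 : ℕ) : ℝ) = (a : ℝ) ^ 2 := by
      rw [← ha2]
      push_cast
      rw [Nat.cast_natAbs, Int.cast_abs]
    have h1 : a.natAbs ^ 2 + 1 ≤ 2 ^ (a.natAbs ^ 2) := Nat.lt_two_pow_self
    have h2 : ((a.natAbs ^ 2 : ℕ) : ℝ) + 1 ≤ 2 ^ (a.natAbs ^ 2) := by exact_mod_cast h1
    have h3 : (2 : ℝ) ^ (a.natAbs ^ 2) ≤ (2 * (q : ℝ)) ^ (a.natAbs ^ 2) :=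
      pow_le_pow_left₀ (by norm_num) h2q _
    rw [← e1, Real.rpow_natCast]
    refine le_trans ?_ (h2.trans h3)
    rw [e1, ← ha2]
    nlinarith
  have hN2 : 2 * (q : ℝ) * (1 + |(a : ℝ)|) ≤ N := by
    refine le_trans ?_ hN
    have h1 : (2 * (q : ℝ)) ^ (1 + (a : ℝ) ^ 2) ≤ (2 * (q : ℝ)) ^ (C * (a : ℝ) ^ 2) :=
      Real.rpow_le_rpow_of_exponent_le (by linarith) (by nlinarith)
    refine le_trans ?_ h1
    rw [Real.rpow_add (by linarith), Real.rpow_one]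
    exact mul_le_mul_of_nonneg_left hk (by linarith)
  have hNpos : (0 : ℝ) < N := by
    refine lt_of_lt_of_le ?_ hN2
    positivity
  set M : ℕ := N / q with hMdef
  have hqM : q * M ≤ N := Nat.mul_div_le N q
  have hMr : (N : ℝ) / (2 * q) ≤ M := by
    have h1 : N < q * (M + 1) := by
      rw [mul_comm]
      exact Nat.lt_mul_of_div_lt (Nat.lt_succ_self _) hq
    have h2 : (N : ℝ) < q * (M + 1) := by exact_mod_cast h1
    have h3 : 2 * (q : ℝ) ≤ N := by nlinarith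
    rw [div_le_iff₀ (by linarith)]
    nlinarith
  have hMa : 1 + |(a : ℝ)| ≤ M := by
    refine le_trans ?_ hMr
    rw [le_div_iff₀ (by linarith)]
    linarith
  have hM2 : (2 : ℝ) ≤ M := by linarith
  have hMpos : (0 : ℝ) < M := by linarith
  -- logarithms
  have hlogN : C * (a : ℝ) ^ 2 * Real.log (2 * q) ≤ Real.log N := by
    rw [← Real.log_rpow (by linarith)]
    exact Real.log_le_log (Real.rpow_pos_of_pos (by linarith) _) hN
  have hlogM : C / 2 * (a : ℝ) ^ 2 * Real.log (2 * q) ≤ Real.log M := by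
    have h1 : Real.log N - Real.log (2 * q) ≤ Real.log M := by
      rw [← Real.log_div hNpos.ne' (by linarith : (2 * (q : ℝ)) ≠ 0)]
      exact Real.log_le_log (by positivity) hMr
    refine le_trans ?_ h1
    have h2 : C / 2 * (a : ℝ) ^ 2 + 1 ≤ C * (a : ℝ) ^ 2 := by nlinarith
    have h3 := mul_le_mul_of_nonneg_right h2 hlog.le
    linarith
  have hlogMpos : 0 < Real.log M := Real.log_pos (by linarith)
  obtain ⟨Q, hQ1, -, -, hQ⟩ := hcls σ hσ q r hq hr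
  have hM2' : 2 ≤ M := by exact_mod_cast hM2
  have hmain := hQ (orb a) (LIN_inv a) M hM2'
  have hsq : C₁ * Real.sqrt (Real.log (2 * q) / Real.log M) ≤ c₀ / (4 * |(a : ℝ)|) := by
    have h1 : Real.sqrt (Real.log (2 * q) / Real.log M) ≤ c₀ / (4 * C₁ * |(a : ℝ)|) := by
      refine Real.sqrt_le_iff.2 ⟨by positivity, ?_⟩
      rw [div_le_iff₀ hlogMpos, div_pow, mul_pow, ha2]
      have h2 : 16 * C₁ ^ 2 ≤ C / 2 * c₀ ^ 2 := by
        rw [hCdef]
        have h3 : 32 * C₁ ^ 2 / c₀ ^ 2 * c₀ ^ 2 = 32 * C₁ ^ 2 := by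
          field_simp
        nlinarith [sq_nonneg c₀]
      have h4 : (4 * C₁) ^ 2 * (a : ℝ) ^ 2 * Real.log (2 * q) ≤ c₀ ^ 2 * Real.log M := by
        have h5 : (4 * C₁) ^ 2 * ((a : ℝ) ^ 2 * Real.log (2 * q)) ≤
            C / 2 * c₀ ^ 2 * ((a : ℝ) ^ 2 * Real.log (2 * q)) :=
          mul_le_mul_of_nonneg_right (by linarith) (by positivity)
        have h6 := mul_le_mul_of_nonneg_left hlogM (sq_nonneg c₀)
        linarith
      rw [div_mul_eq_mul_div, le_div_iff₀ (by positivity)]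
      linarith
    calc C₁ * Real.sqrt (Real.log (2 * q) / Real.log M) ≤ C₁ * (c₀ / (4 * C₁ * |(a : ℝ)|)) :=
          mul_le_mul_of_nonneg_left h1 hC₁.le
      _ = c₀ / (4 * |(a : ℝ)|) := by field_simp
  -- the density of the whole orbit
  have hY : |(a : ℝ)| + 1 ≤ ((Q * M : ℕ) : ℝ) := by
    have h1 : (M : ℝ) ≤ ((Q * M : ℕ) : ℝ) := by exact_mod_cast Nat.le_mul_of_pos_left M hQ1
    linarith
  have hd := hden σ a hσ ha (Q * M) hY
  have hQR : (1 : ℝ) ≤ Q := by exact_mod_cast hQ1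
  have hYpos : (0 : ℝ) < (Q : ℝ) * M := by positivity
  have hY2 : (2 : ℝ) ≤ (Q : ℝ) * M := by nlinarith
  have hd2 : c₀ / (2 * |(a : ℝ)|) ≤ (cnt σ (orb a) 1 0 (Q * M) : ℝ) / ((Q : ℝ) * M) := by
    rw [le_div_iff₀ hYpos]
    refine le_trans ?_ hd
    push_cast
    rw [div_mul_eq_mul_div, ← mul_div_assoc, div_le_div_iff₀ (by positivity) hab]
    have h1 : (Q : ℝ) * M ≤ 2 * ((Q : ℝ) * M - 1) := by linarith
    have h2 := mul_le_mul_of_nonneg_left h1 (mul_nonneg hc₀.le hab.le)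
    linarith
  have hfin : c₀ / (4 * |(a : ℝ)|) ≤ (cnt σ (orb a) q r M : ℝ) / M := by
    have h1 := (abs_le.1 hmain).1
    have h2 : c₀ / (2 * |(a : ℝ)|) = c₀ / (4 * |(a : ℝ)|) + c₀ / (4 * |(a : ℝ)|) := by
      field_simp
      norm_num
    linarith
  rw [le_div_iff₀ hMpos] at hfin
  have hc := LIN_cnt σ (orb a) hr hqM
  have hc' : (cnt σ (orb a) q r M : ℝ) ≤
      (Set.ncard {n : ℕ | n < N ∧ n % q = r ∧ σ * n ∈ orb a} : ℝ) := by exact_mod_cast hc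
  refine le_trans ?_ (hfin.trans hc')
  have h1 : c₀ / (4 * |(a : ℝ)|) * ((N : ℝ) / (2 * q)) ≤ c₀ / (4 * |(a : ℝ)|) * M :=
    mul_le_mul_of_nonneg_left hMr (by positivity)
  refine le_trans (le_of_eq ?_) h1
  field_simp
  norm_num

end Pool.Agent.UC
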