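import Pool.Agent.UC.St

/-!
UC, [ODD]: odd moduli, the final form (helper82).
-/

set_option autoImplicit false

namespace Pool.Agent.UC

open Filter Topology

private theorem ODD_fin (P : ℕ → Prop) (M : ℕ) : {m : ℕ | m < M ∧ P m}.Finite :=
  (Set.finite_lt_nat M).subset fun _ h => h.1

private theorem ODD_cnt_le (σ : ℤ) (A : Set ℤ) (q r M : ℕ) : cnt σ A q r M ≤ M := by
  have h1 : cnt σ A q r M ≤ ((Finset.range M : Finset ℕ) : Set ℕ).ncard :=
    Set.ncard_le_ncard (fun m h => by simpa using h.1) (Finset.finite_toSet _)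
  rwa [Set.ncard_coe_finset, Finset.card_range] at h1

/-- lengthening -/
private theorem ODD_mono (σ : ℤ) (A : Set ℤ) (L N : ℕ) (h : L ≤ N) :
    cnt σ A 1 0 L ≤ cnt σ A 1 0 N ∧ cnt σ A 1 0 N ≤ cnt σ A 1 0 L + (N - L) := by
  constructor
  · exact Set.ncard_le_ncard (fun m hm => ⟨lt_of_lt_of_le hm.1 h, hm.2⟩) (ODD_fin _ N)
  · have h1 : {m : ℕ | m < N ∧ σ * ((1 : ℕ) * m + (0 : ℕ)) ∈ A} ⊆
        {m : ℕ | m < L ∧ σ * ((1 : ℕ) * m + (0 : ℕ)) ∈ A} ∪ (Finset.Ico L N : Set ℕ) := by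
      intro m hm
      rcases lt_or_ge m L with h2 | h2
      · exact Or.inl ⟨h2, hm.2⟩
      · exact Or.inr (by simpa using ⟨h2, hm.1⟩)
    have h2 := Set.ncard_le_ncard h1 ((ODD_fin _ L).union (Finset.finite_toSet _))
    have h3 := Set.ncard_union_le {m : ℕ | m < L ∧ σ * ((1 : ℕ) * m + (0 : ℕ)) ∈ A}
      (Finset.Ico L N : Set ℕ)
    rw [Set.ncard_coe_finset, Nat.card_Ico] at h3
    exact h2.trans h3

/-- residue classes and progressions -/
private theorem ODD_cls (σ : ℤ) (A : Set ℤ) (q r N : ℕ) (hq : 0 < q) (hr : r < q) :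
    cnt σ A q r (N / q) ≤ Set.ncard {n : ℕ | n < N ∧ n % q = r ∧ σ * n ∈ A} ∧
    Set.ncard {n : ℕ | n < N ∧ n % q = r ∧ σ * n ∈ A} ≤ cnt σ A q r (N / q) + 1 := by
  have hfin : {n : ℕ | n < N ∧ n % q = r ∧ σ * n ∈ A}.Finite := ODD_fin _ N
  constructor
  · refine Set.ncard_le_ncard_of_injOn (fun m => q * m + r) ?_ ?_ hfin
    · rintro m ⟨h1, h2⟩
      refine ⟨?_, ?_, ?_⟩
      · have h3 : q * (m + 1) ≤ q * (N / q) := Nat.mul_le_mul_left q h1
        have h4 := Nat.mul_div_le N q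
        have h5 : q * (m + 1) = q * m + q := by ring
        omega
      · rw [Nat.mul_add_mod, Nat.mod_eq_of_lt hr]
      · push_cast
        exact h2
    · intro a _ b _ hab
      have h1 : q * a + r = q * b + r := hab
      exact Nat.eq_of_mul_eq_mul_left hq (by omega)
  · have h1 : {n : ℕ | n < N ∧ n % q = r ∧ σ * n ∈ A} ⊆
        (fun m => q * m + r) '' {m : ℕ | m < N / q ∧ σ * (q * m + r) ∈ A} ∪
          {q * (N / q) + r} := by
      rintro n ⟨h1, h2, h3⟩
      have h4 : q * (n / q) + r = n := by rw [← h2]; exact Nat.div_add_mod n q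
      have h5 : n / q ≤ N / q := Nat.div_le_div_right h1.le
      rcases lt_or_eq_of_le h5 with h6 | h6
      · left
        refine ⟨n / q, ⟨h6, ?_⟩, h4⟩
        rw [← h4] at h3
        push_cast at h3
        exact h3
      · right
        rw [← h6]
        exact h4.symm
    have h2 := Set.ncard_le_ncard h1 (((ODD_fin _ _).image _).union (Set.finite_singleton _))
    refine h2.trans ((Set.ncard_union_le _ _).trans ?_)
    rw [Set.ncard_singleton]
    exact Nat.add_le_add_right (Set.ncard_image_le (ODD_fin _ _)) 1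

theorem thm_ODD (hC : St_CLS) : St_ODD := by
  obtain ⟨C, hC0, hC⟩ := hC
  refine ⟨4 + 2 * C, by positivity, ?_⟩
  intro σ hσ A hA q r N hodd hqN hN hr
  have hq : 0 < q := hodd.pos
  obtain ⟨Q, -, -, hQ, hcl⟩ := hC σ hσ q r hq hr
  rw [hQ hodd] at hcl
  obtain ⟨c1, c2⟩ := ODD_cls σ A q r N hq hr
  set S := Set.ncard {n : ℕ | n < N ∧ n % q = r ∧ σ * n ∈ A} with hS
  have hqR : (1 : ℝ) ≤ q := by exact_mod_cast hq
  have hq0 : (0 : ℝ) < q := by linarith
  have hNR : (2 : ℝ) ≤ N := by exact_mod_cast hN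
  have hqNR : (q : ℝ) ≤ N := by exact_mod_cast hqN
  have hlN : 0 < Real.log N := Real.log_pos (by linarith)
  have hlq : Real.log 2 ≤ Real.log (2 * q) := Real.log_le_log (by norm_num) (by linarith)
  have hl2 : (1 / 2 : ℝ) < Real.log 2 := by
    have := Real.log_two_gt_d9
    linarith
  have hX : (1 : ℝ) ≤ N / q := by rw [le_div_iff₀ hq0]; linarith
  set s := Real.sqrt (Real.log (2 * q) / Real.log N) with hs
  have hs0 : 0 ≤ s := Real.sqrt_nonneg _
  have hMX : ((N / q : ℕ) : ℝ) ≤ N / q := Nat.cast_div_le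
  have hcN : (cnt σ A 1 0 N : ℝ) ≤ N := by exact_mod_cast ODD_cnt_le σ A 1 0 N
  rcases le_or_gt (Real.log N) (4 * Real.log (2 * q)) with hcase | hcase
  · -- small `N`
    have h1 : (1 / 2 : ℝ) ≤ s := by
      rw [hs]
      apply Real.le_sqrt_of_sq_le
      rw [le_div_iff₀ hlN]
      linarith
    have h2 : (S : ℝ) ≤ 2 * (N / q) := by
      have h3 : (S : ℝ) ≤ (cnt σ A q r (N / q) : ℝ) + 1 := by exact_mod_cast c2
      have h4 : (cnt σ A q r (N / q) : ℝ) ≤ ((N / q : ℕ) : ℝ) := by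
        exact_mod_cast ODD_cnt_le σ A q r (N / q)
      linarith
    have h3 : (cnt σ A 1 0 N : ℝ) / q ≤ N / q := div_le_div_of_nonneg_right hcN hq0.le
    have h4 : (0 : ℝ) ≤ (cnt σ A 1 0 N : ℝ) / q := by positivity
    have h5 : (0 : ℝ) ≤ S := by positivity
    have h6 : |(S : ℝ) - (cnt σ A 1 0 N : ℝ) / q| ≤ 2 * (N / q) := by
      rw [abs_le]
      constructor <;> linarith
    refine h6.trans ?_
    have h7 : (N / q : ℝ) * (1 / 2) ≤ (N / q) * s := mul_le_mul_of_nonneg_left h1 (by linarith)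
    have h8 : 0 ≤ C * ((N / q : ℝ) * s) := by positivity
    nlinarith
  · -- large `N`
    have hN4 : ((2 * q : ℝ)) ^ 4 < N := by
      have h1 : Real.log ((2 * q : ℝ) ^ 4) < Real.log N := by
        rw [Real.log_pow]
        exact_mod_cast hcase
      exact (Real.log_lt_log_iff (by positivity) (by linarith)).1 h1
    have hN16 : 16 * (q : ℝ) ^ 4 < N := by
      have : (2 * q : ℝ) ^ 4 = 16 * (q : ℝ) ^ 4 := by ring
      rwa [this] at hN4
    have hq4 : (q : ℝ) ≤ (q : ℝ) ^ 4 := le_self_pow₀ hqR (by norm_num)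
    have hq24 : (q : ℝ) ^ 2 ≤ (q : ℝ) ^ 4 := pow_le_pow_right₀ hqR (by norm_num)
    have hq34 : (q : ℝ) ^ 3 ≤ (q : ℝ) ^ 4 := pow_le_pow_right₀ hqR (by norm_num)
    -- `M`
    have hMlow : (N : ℝ) / (2 * q) ≤ ((N / q : ℕ) : ℝ) := by
      have h1 : (N : ℝ) / q < ((N / q : ℕ) : ℝ) + 1 := by
        rw [div_lt_iff₀ hq0]
        have h2 := Nat.lt_div_mul_add (a := N) (b := q) hq
        have h3 : N < (N / q + 1) * q := by
          have : (N / q + 1) * q = N / q * q + q := by ring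
          omega
        exact_mod_cast h3
      have h2 : (2 : ℝ) ≤ N / q := by
        rw [le_div_iff₀ hq0]
        linarith
      have h3 : (N : ℝ) / (2 * q) = (N / q) / 2 := by field_simp
      rw [h3]
      linarith
    have hM2 : 2 ≤ N / q := by
      rw [Nat.le_div_iff_mul_le hq]
      have h3 : (2 * q : ℝ) ≤ N := by linarith
      exact_mod_cast h3
    have hM2R : (2 : ℝ) ≤ ((N / q : ℕ) : ℝ) := by exact_mod_cast hM2
    set M := N / q with hM
    have hlM : 0 < Real.log M := Real.log_pos (by linarith)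
    have hM3 : (N : ℝ) ≤ (M : ℝ) ^ 3 := by
      have h1 : (N / (2 * q) : ℝ) ^ 3 ≤ (M : ℝ) ^ 3 := pow_le_pow_left₀ (by positivity) hMlow 3
      refine le_trans ?_ h1
      rw [div_pow, le_div_iff₀ (by positivity)]
      have h2 : (2 * q : ℝ) ^ 3 = 8 * (q : ℝ) ^ 3 := by ring
      rw [h2]
      have h3 : 8 * (q : ℝ) ^ 3 ≤ N := by linarith
      have h4 : (N : ℝ) ≤ (N : ℝ) ^ 2 := by nlinarith
      calc (N : ℝ) * (8 * (q : ℝ) ^ 3) ≤ N * N ^ 2 :=
            mul_le_mul_of_nonneg_left (h3.trans h4) (by linarith)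
        _ = (N : ℝ) ^ 3 := by ring
    have hlog : Real.log N ≤ 3 * Real.log M := by
      have h1 := Real.log_le_log (by linarith) hM3
      rw [Real.log_pow] at h1
      exact_mod_cast h1
    have hsM : Real.sqrt (Real.log (2 * q) / Real.log M) ≤ 2 * s := by
      have h1 : 2 * s = Real.sqrt (4 * (Real.log (2 * q) / Real.log N)) := by
        rw [hs, Real.sqrt_mul (by norm_num), show (4 : ℝ) = 2 ^ 2 by norm_num,
          Real.sqrt_sq (by norm_num)]
      rw [h1]
      apply Real.sqrt_le_sqrt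
      rw [← mul_div_assoc, div_le_div_iff₀ hlM hlN]
      have h2 : 0 ≤ Real.log (2 * q) := by linarith
      nlinarith
    -- the errors
    have herr : 1 ≤ (N / q : ℝ) * s := by
      have h1 : (N / q : ℝ) * s = Real.sqrt ((N / q : ℝ) ^ 2 * (Real.log (2 * q) / Real.log N)) := by
        rw [hs, Real.sqrt_mul (by positivity), Real.sqrt_sq (by linarith)]
      rw [h1]
      apply Real.le_sqrt_of_sq_le
      rw [← mul_div_assoc, le_div_iff₀ hlN]
      have h2 : Real.log N ≤ N := (Real.log_le_sub_one_of_pos (by linarith)).trans (by linarith)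
      have h3 : 16 * (N : ℝ) ≤ (N / q : ℝ) ^ 2 := by
        rw [div_pow, le_div_iff₀ (by positivity)]
        have h4 : 16 * (q : ℝ) ^ 2 ≤ N := by linarith
        nlinarith
      have h5 : (1 / 2 : ℝ) ≤ Real.log (2 * q) := by linarith
      have h6 : 16 * (N : ℝ) * (1 / 2) ≤ (N / q : ℝ) ^ 2 * Real.log (2 * q) :=
        mul_le_mul h3 h5 (by norm_num) (by positivity)
      linarith
    have hmain := hcl A hA M hM2
    have hmain2 := hmain.trans (mul_le_mul_of_nonneg_left hsM hC0.le)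
    have hM0 : (0 : ℝ) < M := by linarith
    have hqM : q * M ≤ N := Nat.mul_div_le N q
    obtain ⟨m1, m2⟩ := ODD_mono σ A (q * M) N hqM
    have hlt : N - q * M ≤ q := by
      have h2 := Nat.lt_div_mul_add (a := N) (b := q) hq
      rw [← hM, mul_comm] at h2
      omega
    have e1 : |(S : ℝ) - cnt σ A q r M| ≤ 1 := by
      have h1 : (cnt σ A q r M : ℝ) ≤ S := by exact_mod_cast c1
      have h2 : (S : ℝ) ≤ cnt σ A q r M + 1 := by exact_mod_cast c2
      rw [abs_le]
      constructor <;> linarith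
    have e3 : |(cnt σ A 1 0 (q * M) : ℝ) / q - (cnt σ A 1 0 N : ℝ) / q| ≤ 1 := by
      have h1 : (cnt σ A 1 0 (q * M) : ℝ) ≤ cnt σ A 1 0 N := by exact_mod_cast m1
      have h2 : (cnt σ A 1 0 N : ℝ) ≤ cnt σ A 1 0 (q * M) + q := by
        have : cnt σ A 1 0 N ≤ cnt σ A 1 0 (q * M) + q := m2.trans (by omega)
        exact_mod_cast this
      rw [← sub_div, abs_div, abs_of_pos hq0, div_le_one hq0, abs_le]
      constructor <;> linarith
    have e2 : |(cnt σ A q r M : ℝ) - (cnt σ A 1 0 (q * M) : ℝ) / q| ≤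
        (N / q) * (C * (2 * s)) := by
      have h1 : (cnt σ A q r M : ℝ) - (cnt σ A 1 0 (q * M) : ℝ) / q =
          M * ((cnt σ A q r M : ℝ) / M - cnt σ A 1 0 (q * M) / ((q : ℝ) * M)) := by
        field_simp
      rw [h1, abs_mul, abs_of_pos hM0]
      exact mul_le_mul hMX hmain2 (abs_nonneg _) (by linarith)
    have e4 : |(S : ℝ) - (cnt σ A 1 0 N : ℝ) / q| ≤ 1 + (N / q) * (C * (2 * s)) + 1 := by
      have h1 : (S : ℝ) - (cnt σ A 1 0 N : ℝ) / q = ((S : ℝ) - cnt σ A q r M) +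
          ((cnt σ A q r M : ℝ) - (cnt σ A 1 0 (q * M) : ℝ) / q) +
          ((cnt σ A 1 0 (q * M) : ℝ) / q - (cnt σ A 1 0 N : ℝ) / q) := by ring
      rw [h1]
      refine (abs_add_three _ _ _).trans ?_
      linarith
    refine e4.trans ?_
    have h9 : 0 ≤ (N / q : ℝ) * s := by linarith
    nlinarith

end Pool.Agent.UC
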