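import Pool.Agent.UC.St

/-!
# UC, module PAR (helper25)

Merging along an arithmetic progression with odd difference.
-/

set_option autoImplicit false

namespace Pool.Agent.UC

open Filter Topology
open Pool.Agent.Helper14 (T)
open Pool.Agent.Helper86.CollatzChain (w u w_zero_or_one u_nonneg)
open Pool.Agent.Helper86.CollatzInt (Meet coalesce)
open Pool.Agent.Helper86.CollatzRate (rate)

theorem PAR_finite (M : ℕ) (P : ℕ → Prop) : {m : ℕ | m < M ∧ P m}.Finite :=
  (Set.finite_Iio M).subset fun _ h => h.1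

/-- The `m < M` at which the pair chain of `q m + c` is not absorbed. -/
theorem PAR_ncard (hL : St_LAT) (k M : ℕ) (s : ℕ × ℤ) (q c : ℤ) (hq : Odd q) :
    (Set.ncard {m : ℕ | m < M ∧ w k s (q * m + c) ≠ 0} : ℝ) ≤ (M + 2 ^ k) * u k s := by
  classical
  have h1 : {m : ℕ | m < M ∧ w k s (q * m + c) ≠ 0} =
      (((Finset.range M).filter (fun m : ℕ => w k s (q * m + c) ≠ 0) : Finset ℕ) : Set ℕ) := by
    ext m
    simp
  rw [h1, Set.ncard_coe_finset, Finset.card_filter]
  push_cast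
  refine le_trans (le_of_eq ?_) (hL k M s q c hq)
  apply Finset.sum_congr rfl
  intro i _
  rcases w_zero_or_one k s (q * i + c) with h | h
  · simp [h]
  · simp [h]

theorem thm_PAR (hL : St_LAT) : St_PAR := by
  obtain ⟨C, hC, hrate⟩ := rate
  refine ⟨4 * C, by positivity, ?_⟩
  intro q c a b M hq hM
  set X : ℝ := 1 + (a : ℝ) ^ 2 + Real.log (1 + |(b : ℝ)|) with hX
  have hX0 : 0 ≤ X := by
    have : 0 ≤ Real.log (1 + |(b : ℝ)|) := by
      apply Real.log_nonneg
      have := abs_nonneg (b : ℝ)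
      linarith
    positivity
  obtain ⟨k, hk⟩ : ∃ k, k = Nat.log 2 M := ⟨_, rfl⟩
  have hk1 : 1 ≤ k := by
    rw [hk]
    exact Nat.log_pos (by norm_num) hM
  have hk2 : 2 ^ k ≤ M := by rw [hk]; exact Nat.pow_log_le_self 2 (by omega)
  have hk3 : M < 2 ^ (k + 1) := by rw [hk]; exact Nat.lt_pow_succ_log_self (by norm_num) M
  have hkpos : (0 : ℝ) < k := by exact_mod_cast hk1
  have hMpos : (0 : ℝ) < M := by
    have : 0 < M := by omega
    exact_mod_cast this
  have hlogpos : 0 < Real.log M := by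
    apply Real.log_pos
    have : 1 < M := by omega
    exact_mod_cast this
  have hlog : Real.log M ≤ 2 * k := by
    have h1 : Real.log M ≤ Real.log ((2 : ℝ) ^ (k + 1)) := by
      apply Real.log_le_log hMpos
      exact_mod_cast hk3.le
    rw [Real.log_pow] at h1
    have h2 : Real.log 2 ≤ 1 := by
      have := Real.log_two_lt_d9
      linarith
    have h3 : ((k + 1 : ℕ) : ℝ) * Real.log 2 ≤ ((k + 1 : ℕ) : ℝ) * 1 :=
      mul_le_mul_of_nonneg_left h2 (by positivity)
    push_cast at h1 h3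
    have : (1 : ℝ) ≤ k := by exact_mod_cast hk1
    linarith
  have h1 : Set.ncard {m : ℕ | m < M ∧ ¬ Meet (q * m + c) (3 ^ a * (q * m + c) + b)} ≤
      Set.ncard {m : ℕ | m < M ∧ w k (a, b) (q * m + c) ≠ 0} := by
    apply Set.ncard_le_ncard _ (PAR_finite M _)
    rintro m ⟨hn, hm⟩
    exact ⟨hn, fun hw => hm ⟨k, coalesce k a b _ _ rfl hw⟩⟩
  have h2 := PAR_ncard hL k M (a, b) q c hq
  have h3 := hrate a b k hk1
  have h4 := u_nonneg k (a, b)
  have h5 : ((M : ℝ) + 2 ^ k) ≤ 2 * M := by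
    have : ((2 ^ k : ℕ) : ℝ) ≤ M := by exact_mod_cast hk2
    push_cast at this
    linarith
  have h6 : Real.sqrt (X / k) ≤ 2 * Real.sqrt (X / Real.log M) := by
    have h7 : (2 : ℝ) * Real.sqrt (X / Real.log M) = Real.sqrt (4 * (X / Real.log M)) := by
      rw [Real.sqrt_mul (by norm_num)]
      have : Real.sqrt 4 = 2 := by
        rw [show (4 : ℝ) = 2 ^ 2 by norm_num, Real.sqrt_sq (by norm_num)]
      rw [this]
    rw [h7]
    apply Real.sqrt_le_sqrt
    have h8 : 4 * (X / Real.log M) = 4 * X / Real.log M := by ring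
    rw [h8, div_le_div_iff₀ hkpos hlogpos]
    have h9 := mul_le_mul_of_nonneg_left hlog hX0
    have h10 : 0 ≤ X * (k : ℝ) := mul_nonneg hX0 hkpos.le
    linarith
  have h1' : (Set.ncard {m : ℕ | m < M ∧ ¬ Meet (q * m + c) (3 ^ a * (q * m + c) + b)} : ℝ) ≤
      Set.ncard {m : ℕ | m < M ∧ w k (a, b) (q * m + c) ≠ 0} := by exact_mod_cast h1
  calc (Set.ncard {m : ℕ | m < M ∧ ¬ Meet (q * m + c) (3 ^ a * (q * m + c) + b)} : ℝ)
      ≤ (M + 2 ^ k) * u k (a, b) := h1'.trans h2
    _ ≤ 2 * M * u k (a, b) := mul_le_mul_of_nonneg_right h5 h4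
    _ ≤ 2 * M * (C * Real.sqrt (X / k)) := mul_le_mul_of_nonneg_left h3 (by positivity)
    _ ≤ 2 * M * (C * (2 * Real.sqrt (X / Real.log M))) := by
        refine mul_le_mul_of_nonneg_left ?_ (by positivity)
        exact mul_le_mul_of_nonneg_left h6 hC.le
    _ = 4 * C * M * Real.sqrt (X / Real.log M) := by ring

end Pool.Agent.UC
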