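import Pool.Agent.UC.LAT
import Pool.Agent.UC.PAR
import Pool.Agent.UC.DIF
import Pool.Agent.UC.AVG
import Pool.Agent.UC.EVN
import Pool.Agent.UC.CLS
import Pool.Agent.UC.ODD
import Pool.Agent.UC.DEN
import Pool.Agent.UC.LIN
import Pool.Agent.UC.INT
import Pool.Agent.UC.CRI

/-!
# UC: the chain of all modules
-/

set_option autoImplicit false

namespace Pool.Agent.UC

theorem all_PAR : St_PAR := thm_PAR thm_LAT

theorem all_DIF : St_DIF := thm_DIF all_PAR

theorem all_AVG : St_AVG := thm_AVG all_DIF

theorem all_CLS : St_CLS := thm_CLS all_AVG thm_EVN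

theorem all_ODD : St_ODD := thm_ODD all_CLS

theorem all_DEN : St_DEN := thm_DEN all_CLS

theorem all_LIN : St_LIN := thm_LIN all_CLS

theorem all_INT : St_INT := thm_INT all_DIF

theorem all_CRI : St_CRI := thm_CRI all_INT

end Pool.Agent.UC
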