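import Pool.Agent.UC.St

/-!
# UC, LAT: the pair chain along an arithmetic progression with odd difference
-/

set_option autoImplicit false

namespace Pool.Agent.UC

open Filter Topology
open Pool.Agent.Helper86.CollatzChain

theorem LAT_block (k : ℕ) (s : ℕ × ℤ) (q c : ℤ) (hq : Odd q) :
    ∑ i ∈ Finset.range (2 ^ k), w k s (q * i + c) = 2 ^ k * u k s := by
  have : NeZero (2 ^ k) := ⟨by positivity⟩
  rw [← sum_w k s]
  refine sum_affine (w_periodic k s) q c ?_
  rw [ZMod.coe_int_isUnit_iff_isCoprime]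
  obtain ⟨v, rfl⟩ := hq
  push_cast
  exact IsCoprime.pow_left ⟨-v, 1, by ring⟩

theorem LAT_blocks (k n : ℕ) (s : ℕ × ℤ) (q c : ℤ) (hq : Odd q) :
    ∑ i ∈ Finset.range (2 ^ k * n), w k s (q * i + c) = n * (2 ^ k * u k s) := by
  induction n with
  | zero => simp
  | succ n ih =>
    rw [Nat.mul_succ, Finset.sum_range_add, ih]
    have h1 : ∑ x ∈ Finset.range (2 ^ k), w k s (q * ((2 ^ k * n + x : ℕ) : ℤ) + c) =
        ∑ i ∈ Finset.range (2 ^ k), w k s (q * i + (q * ((2 ^ k * n : ℕ) : ℤ) + c)) := by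
      apply Finset.sum_congr rfl
      intro i _
      congr 1
      push_cast
      ring
    rw [h1, LAT_block k s q _ hq]
    push_cast
    ring

/-- **LAT.** -/
theorem thm_LAT : St_LAT := by
  intro k N s q c hq
  have hpos : 0 < 2 ^ k := by positivity
  have h1 : N ≤ 2 ^ k * (N / 2 ^ k + 1) := by
    have := Nat.lt_mul_div_succ N hpos
    exact this.le
  have h2 : ∑ i ∈ Finset.range N, w k s (q * i + c) ≤
      ∑ i ∈ Finset.range (2 ^ k * (N / 2 ^ k + 1)), w k s (q * i + c) := by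
    apply Finset.sum_le_sum_of_subset_of_nonneg
    · intro i hi
      exact Finset.mem_range.2 (lt_of_lt_of_le (Finset.mem_range.1 hi) h1)
    · intro i _ _
      rcases w_zero_or_one k s (q * i + c) with h | h <;> rw [h]
      norm_num
  rw [LAT_blocks k _ s q c hq] at h2
  refine h2.trans ?_
  have hu := u_nonneg k s
  have h3 : ((N / 2 ^ k + 1 : ℕ) : ℝ) * 2 ^ k ≤ N + 2 ^ k := by
    have h4 : (N / 2 ^ k) * 2 ^ k ≤ N := Nat.div_mul_le_self N (2 ^ k)
    have h5 : (((N / 2 ^ k) * 2 ^ k : ℕ) : ℝ) ≤ N := by exact_mod_cast h4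
    push_cast at h5 ⊢
    linarith
  calc ((N / 2 ^ k + 1 : ℕ) : ℝ) * (2 ^ k * u k s) = (((N / 2 ^ k + 1 : ℕ) : ℝ) * 2 ^ k) * u k s := by
        ring
    _ ≤ (N + 2 ^ k) * u k s := mul_le_mul_of_nonneg_right h3 hu

end Pool.Agent.UC
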