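import Mathlib
import Pool.Agent.Helper86.CollatzInt
import Pool.Agent.Helper14.FatouDefs

/-!
# UC: sets which are invariant under the `3x+1` map, in residue classes to all moduli

Statements of the modules (architect helper41) with complete proofs. Module `X` is
`Pool/Agent/UC/X.lean`, `theorem thm_X (h : St_Y) .. : St_X`; import only `Pool.Agent.UC.St` and what the
docstring names. Only input: `Helper86.CollatzRate.rate`, the rate of merging of `n` and `3 ^ a n + b`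
for fair coins.
-/

set_option autoImplicit false

namespace Pool.Agent.UC

open Filter Topology
open Pool.Agent.Helper14 (T)
open Pool.Agent.Helper86.CollatzChain (w u)
open Pool.Agent.Helper86.CollatzInt (Meet)

/-- `A` is invariant under the `3x+1` map. -/
def Inv (A : Set ℤ) : Prop := ∀ n, T n ∈ A ↔ n ∈ A

/-- The number of the `0 ≤ m < M` with `σ (q m + r) ∈ A`. -/
noncomputable def cnt (σ : ℤ) (A : Set ℤ) (q r M : ℕ) : ℕ :=
  Set.ncard {m : ℕ | m < M ∧ σ * (q * m + r) ∈ A}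

/-- [LAT] the pair chain along an arithmetic progression with odd difference.
PROOF. As `CollatzInt.sum_w_shift`, `sum_w_blocks_shift`, `sum_w_le_shift`, with `q` in place of `1` in
`CollatzChain.sum_affine (w_periodic k s) q c _` (`(q : ZMod (2 ^ k))` is a unit: `q` is odd), in blocks of `2 ^ k`
consecutive `i`. -/
def St_LAT : Prop := ∀ (k M : ℕ) (s : ℕ × ℤ) (q c : ℤ), Odd q →
  ∑ i ∈ Finset.range M, w k s (q * i + c) ≤ (M + 2 ^ k) * u k s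

/-- [PAR] merging along an arithmetic progression with odd difference. Hypothesis: `St_LAT`.
PROOF. As `CollatzInt.ncard_le`, `CollatzInt.meet_rate`: `k = Nat.log 2 M`, `CollatzInt.coalesce k a b n _ rfl`, LAT,
`CollatzRate.rate`. -/
def St_PAR : Prop := ∃ C : ℝ, 0 < C ∧ ∀ (q c : ℤ) (a : ℕ) (b : ℤ) (M : ℕ), Odd q → 2 ≤ M →
  (Set.ncard {m : ℕ | m < M ∧ ¬ Meet (q * m + c) (3 ^ a * (q * m + c) + b)} : ℝ) ≤
    C * M * Real.sqrt ((1 + (a : ℝ) ^ 2 + Real.log (1 + |(b : ℝ)|)) / Real.log M)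

/-- [DIF] two classes to the same odd modulus. Hypothesis: `St_PAR`.
PROOF. PAR for `q ↦ σ q`, `c = σ r`, `a = 0`, `b = σ (r' - r)`, `|b| ≤ R`. If `Meet n n'` then `n ∈ A ↔ n' ∈ A`
(`T^[k] n ∈ A ↔ n ∈ A` by induction). The second part: the difference of the two counting functions is at
most the number of the `m` at which exactly one of the conditions holds. -/
def St_DIF : Prop := ∃ C : ℝ, 0 < C ∧ ∀ σ : ℤ, |σ| = 1 → ∀ A, Inv A → ∀ q r r' M R : ℕ, Odd q →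
  2 ≤ M → r ≤ R → r' ≤ R →
  (Set.ncard {m : ℕ | m < M ∧ ¬ (σ * (q * m + r) ∈ A ↔ σ * (q * m + r') ∈ A)} : ℝ) ≤
    C * M * Real.sqrt ((1 + Real.log (1 + R)) / Real.log M) ∧
  |(cnt σ A q r M : ℝ) - cnt σ A q r' M| ≤ C * M * Real.sqrt ((1 + Real.log (1 + R)) / Real.log M)

/-- [AVG] one class against the whole. Hypothesis: `St_DIF`.
PROOF. `∑_(r' < q) cnt σ A q r' M = cnt σ A 1 0 (q * M)` (`n = q m + r'`), so
`cnt σ A q r M - cnt σ A 1 0 (q * M) / q` is the average over `r' < q` of the differences of DIF. -/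
def St_AVG : Prop := ∃ C : ℝ, 0 < C ∧ ∀ σ : ℤ, |σ| = 1 → ∀ A, Inv A → ∀ q r M R : ℕ, Odd q →
  2 ≤ M → q ≤ R → r ≤ R →
  |(cnt σ A q r M : ℝ) / M - cnt σ A 1 0 (q * M) / ((q : ℝ) * M)| ≤
    C * Real.sqrt ((1 + Real.log (1 + R)) / Real.log M)

/-- [EVN] even moduli.
PROOF. Let `q = 2 q₁`. If `r = 2 r₁` then `T (σ (q m + r)) = σ (q₁ m + r₁)`. If `r` is odd then
`T (σ (q m + r)) = σ (3 q₁ m + (3 r + σ) / 2)`, `(3 r + σ) / 2 ≤ 2 r` a natural number. By invariance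
`cnt σ A q r M = cnt σ A q₁ r₁ M` or `cnt σ A (3 q₁) ((3 r + σ) / 2) M`. For `q = 2 ^ i p`, `p` odd: `i` steps
(induction on `i`) lead to `Q = 3 ^ j p`, `j ≤ i`, and `ρ ≤ 2 ^ i r`. -/
def St_EVN : Prop := ∀ σ : ℤ, |σ| = 1 → ∀ q r : ℕ, 1 ≤ q → ∃ Q ρ : ℕ, Odd Q ∧ 1 ≤ Q ∧ Q ≤ q ^ 2 ∧
  ρ ≤ q * r ∧ ∀ A, Inv A → ∀ M, cnt σ A q r M = cnt σ A Q ρ M

/-- [CLS] all moduli, all classes. Hypotheses: `St_AVG`, `St_EVN`.
PROOF. `q` odd: AVG with `Q = q`, `R = q`. `q` even: EVN, then AVG for `Q`, `ρ`, `R = 2 q ^ 2` or so (`r < q`).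
`1 + log (1 + R) ≤ C' log (2 q)`. -/
def St_CLS : Prop := ∃ C : ℝ, 0 < C ∧ ∀ σ : ℤ, |σ| = 1 → ∀ q r : ℕ, 1 ≤ q → r < q →
  ∃ Q : ℕ, 1 ≤ Q ∧ Q ≤ q ^ 2 ∧ (Odd q → Q = q) ∧ ∀ A, Inv A → ∀ M : ℕ, 2 ≤ M →
    |(cnt σ A q r M : ℝ) / M - cnt σ A 1 0 (Q * M) / ((Q : ℝ) * M)| ≤
      C * Real.sqrt (Real.log (2 * q) / Real.log M)

/-- [ODD] **odd moduli, the final form**. Hypothesis: `St_CLS`.
PROOF. If `N < q ^ 4` or `N` is at most a constant, then the right side is at least `C (N / q) / 4` (large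
`C`), and the left side is at most `N / q + 1 ≤ 2 N / q`. Otherwise `M := N / q` (division of natural numbers),
`M ^ 2 ≥ N` or so, `log M ≥ (log N) / 3`; the number on the left differs from `cnt σ A q r M` by at most `1`,
and `cnt σ A 1 0 N` from `cnt σ A 1 0 (q * M)` by at most `q`; CLS with `Q = q`, multiplied by `M ≤ N / q`; the
errors `≤ 2` are at most `C (N / q) sqrt (log (2 q) / log N)` as well. -/
def St_ODD : Prop := ∃ C : ℝ, 0 < C ∧ ∀ σ : ℤ, |σ| = 1 → ∀ A, Inv A → ∀ q r N : ℕ, Odd q →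
  q ≤ N → 2 ≤ N → r < q →
  |(Set.ncard {n : ℕ | n < N ∧ n % q = r ∧ σ * n ∈ A} : ℝ) - (cnt σ A 1 0 N : ℝ) / q| ≤
    C * (N / q) * Real.sqrt (Real.log (2 * q) / Real.log N)

/-- [DEN] all moduli `q ≤ N ^ δ`, if `A` has a density. Hypothesis: `St_CLS`.
PROOF. Let `q ≤ N ^ δ`, `δ ≤ 1 / 2`, `M := N / q`; `log (2 q) / log M ≤ (log 2 + δ log N) / (log N / 3)` is
small if `δ` is small and `N` large (`N₀` depends on `δ`, `A`); CLS, and `cnt σ A 1 0 (Q * M) / (Q * M)` is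
near `d` as `Q * M ≥ M` is large. From `cnt σ A q r M / M` to the set of the statement: as in ODD,
`|M q / N - 1| ≤ q / N`. -/
def St_DEN : Prop := ∀ σ : ℤ, |σ| = 1 → ∀ A, Inv A → ∀ d : ℝ,
  Tendsto (fun M : ℕ => (cnt σ A 1 0 M : ℝ) / M) atTop (𝓝 d) → ∀ ε : ℝ, 0 < ε →
  ∃ δ : ℝ, 0 < δ ∧ ∃ N₀ : ℕ, ∀ q r N : ℕ, 1 ≤ q → r < q → N₀ ≤ N → (q : ℝ) ≤ (N : ℝ) ^ δ →
    |(Set.ncard {n : ℕ | n < N ∧ n % q = r ∧ σ * n ∈ A} : ℝ) - d * (N / q)| ≤ ε * (N / q)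

/-- the grand orbit of `a` -/
def orb (a : ℤ) : Set ℤ := {n : ℤ | ∃ j k : ℕ, T^[j] n = T^[k] a}

/-- [LIN] **a theorem of Linnik type**: grand orbits in all classes to all moduli. Hypothesis: `St_CLS`;
import `Pool.Agent.Collatz3.PDGrand`.
PROOF. `orb a` is invariant. `PD.grand_density` with `m = a`, `x = (Y - 1) / |a|`: for `Y > |a|`
`cnt σ (orb a) 1 0 Y ≥ c₀ (Y - 1) / |a|`. Let `M := N / q`; `C` is large, so that `C₁ sqrt (log (2 q) / log M)` (CLS) is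
at most `c₀ / (8 |a|)` (`log M ≥ (log N) / 2 ≥ C a ^ 2 log (2 q) / 2`) and `Q * M ≥ M ≥ 4 |a|`. Then
`cnt σ (orb a) q r M ≥ (c₀ / (8 |a|)) M`, and `q m + r < q M ≤ N` for `m < M`; `M ≥ N / (2 q)`. -/
def St_LIN : Prop := ∃ c C : ℝ, 0 < c ∧ 0 < C ∧ ∀ σ a : ℤ, |σ| = 1 → 0 < σ * a →
  ∀ q r N : ℕ, 1 ≤ q → r < q → (2 * (q : ℝ)) ^ (C * (a : ℝ) ^ 2) ≤ N →
    c / |(a : ℝ)| * (N / q) ≤
      (Set.ncard {n : ℕ | n < N ∧ n % q = r ∧ σ * n ∈ orb a} : ℝ)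

/-- [INT] local constancy on intervals, averaged. Hypothesis: `St_DIF` (for `q = 1`).
PROOF. For fixed `h < H` the number of the `n < N` with exactly one of `σ n`, `σ (n + h)` in `A` is, by DIF with
`q = 1`, `r = 0`, `r' = h`, `R = H`, at most `C N sqrt ((1 + log (1 + H)) / log N)`; sum over `h`
(`1 + log (1 + H) ≤ C' log (2 H)`). -/
def St_INT : Prop := ∃ C : ℝ, 0 < C ∧ ∀ σ : ℤ, |σ| = 1 → ∀ A, Inv A → ∀ H N : ℕ, 1 ≤ H → 2 ≤ N →
  (∑ h ∈ Finset.range H,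
    (Set.ncard {n : ℕ | n < N ∧ ¬ (σ * n ∈ A ↔ σ * (n + h) ∈ A)} : ℝ)) ≤
      C * N * H * Real.sqrt (Real.log (2 * H) / Real.log N)

/-- [CRI] a criterion with short intervals. Hypothesis: `St_INT`.
If for some `δ > 0` and every `ε > 0` almost every interval `[n, n + N ^ ε)`, `n < N`, contains at least `δ N ^ ε`
elements `m` with `σ m ∉ A`, then `A` has lower density zero among the integers of sign `σ`.
PROOF. Let `κ > 0` and suppose `cnt σ A 1 0 N ≥ κ N` for all large `N`. Choose `ε` with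
`C sqrt (2 ε) / δ < κ / 4`. `H := ⌈N ^ ε⌉`. Every `n < N` with `σ n ∈ A` for which the interval has at least
`δ H / 2` elements `m` with `σ m ∉ A` contributes at least `δ H / 2` to the sum in INT: at most
`(2 C / δ) N sqrt (log (2 H) / log N)` such `n`, less than `κ N / 2` for large `N`; the others are `o(N)` by
assumption. Contradiction. -/
def St_CRI : Prop := ∀ σ : ℤ, |σ| = 1 → ∀ A, Inv A → ∀ δ : ℝ, 0 < δ →
  (∀ ε : ℝ, 0 < ε → Tendsto (fun N : ℕ => (Set.ncard {n : ℕ | n < N ∧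
    (Set.ncard {h : ℕ | h < ⌈(N : ℝ) ^ ε⌉₊ ∧ σ * (n + h) ∉ A} : ℝ) < δ * ⌈(N : ℝ) ^ ε⌉₊} : ℝ) / N)
      atTop (𝓝 0)) →
  ∀ κ : ℝ, 0 < κ → ∃ᶠ N : ℕ in atTop, (cnt σ A 1 0 N : ℝ) < κ * N

end Pool.Agent.UC
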